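import Mathlib

open Set Filter Topology

namespace Pool.Agent.Lib.MP_d61ec6_gt

/-- `X` is monolithic (for compact `X`): the closure of every subset `A` has weight at most
`max |A| ℵ₀`. -/
def Monolithic (X : Type) [TopologicalSpace X] : Prop :=
  ∀ A : Set X, ∃ B : Set (Set (closure A)),
    TopologicalSpace.IsTopologicalBasis B ∧
      Cardinal.mk ↥B ≤ max (Cardinal.mk ↥A) Cardinal.aleph0

/-- `p(C_p(X)) = ω`: every point-finite family of nonempty open subsets of `C(X, ℝ)` with the
topology of pointwise convergence is countable. -/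
def CpPointFiniteCountable (X : Type) [TopologicalSpace X] : Prop :=
  ∀ 𝒰 : Set (Set C(X, ℝ)),
    (∀ U ∈ 𝒰,
        IsOpen[TopologicalSpace.induced (fun f : C(X, ℝ) => (⇑f : X → ℝ))
          (inferInstance : TopologicalSpace (X → ℝ))] U ∧ U.Nonempty) →
    (∀ f : C(X, ℝ), {U | U ∈ 𝒰 ∧ f ∈ U}.Finite) →
    𝒰.Countable

end Pool.Agent.Lib.MP_d61ec6_gt
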