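import Mathlib
import Pool.Agent.Lib.MP_302921_gt.Rec
import Pool.Agent.Lib.MP_302921_gt.Guess
import Pool.Agent.Lib.MP_d61ec6_gt.Defs

section

open Set Filter Topology
open Pool.Agent.Lib.MP_302921_gt

namespace Pool.Agent.Lib.MP_d61ec6_gt

/-- one step of the construction: the number of new points and the labels of the old points -/
abbrev Step : Type := ℕ × (Omega1 × ℕ → ℕ)

/-- the coordinate function at `γ` -/
noncomputable def phi (f : Omega1 → Step) (γ : Omega1) (z : Omega1 × ℕ) : ℕ :=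
  if z.1 < γ then (f γ).2 z + 1 else if z.1 = γ then z.2 + 1 else 0

theorem phi_lt (f : Omega1 → Step) {γ : Omega1} {z : Omega1 × ℕ} (h : z.1 < γ) :
    phi f γ z = (f γ).2 z + 1 := by simp [phi, h]

theorem phi_eq (f : Omega1 → Step) {γ : Omega1} {z : Omega1 × ℕ} (h : z.1 = γ) :
    phi f γ z = z.2 + 1 := by simp [phi, h]

theorem phi_gt (f : Omega1 → Step) {γ : Omega1} {z : Omega1 × ℕ} (h : γ < z.1) :
    phi f γ z = 0 := by simp [phi, h.not_gt, h.ne']

theorem phi_eq_zero_iff (f : Omega1 → Step) {γ : Omega1} {z : Omega1 × ℕ} :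
    phi f γ z = 0 ↔ γ < z.1 := by
  constructor
  · intro h
    by_contra hcon
    rcases lt_or_eq_of_le (not_lt.mp hcon) with h' | h'
    · rw [phi_lt f h'] at h; omega
    · rw [phi_eq f h'] at h; omega
  · exact phi_gt f

theorem phi_congr {f g : Omega1 → Step} {γ : Omega1} (h : f γ = g γ) (z : Omega1 × ℕ) :
    phi f γ z = phi g γ z := by simp [phi, h]

/-- two points are separated by the coordinate of one of their levels -/
theorem phi_sep (f : Omega1 → Step) {z w : Omega1 × ℕ} (h1 : phi f z.1 z = phi f z.1 w)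
    (h2 : phi f w.1 z = phi f w.1 w) : z = w := by
  rcases lt_trichotomy z.1 w.1 with h | h | h
  · rw [phi_eq f rfl, phi_gt f h] at h1; omega
  · rw [phi_eq f rfl, phi_eq f h.symm] at h1
    exact Prod.ext h (by omega)
  · rw [phi_gt f h, phi_eq f rfl] at h2; omega

/-- the properties of the step at `γ` -/
structure Good (A : Omega1 → Set (List (Omega1 × ℕ))) (γ : Omega1) (f : Omega1 → Step)
    (x : Step) : Prop where
  pos : 0 < x.1
  lt : ∀ z, x.2 z < x.1
  coh : ∀ l < γ, ∀ i, (∀ β, ¬ β < l) ∨ ∃ ν < l, ∀ z : Omega1 × ℕ, ν < z.1 → z.1 < l →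
    (f l).2 z = i → x.2 z = x.2 (l, i)
  guess : (∃ p > 0, ∀ δ < γ, ∃ l ∈ A γ, l.Nodup ∧ l.length = p ∧ ∀ z ∈ l, δ < z.1 ∧ z.1 < γ) →
    ∀ δ < γ, ∃ l ∈ A γ, (∀ z ∈ l, δ < z.1 ∧ z.1 < γ) ∧
      ∀ (j : ℕ) (hj : j < l.length), x.2 l[j] = j

/-- the label of `z` with respect to the list `l` -/
noncomputable def lab (f : Omega1 → Step) (l : List (Omega1 × ℕ)) (z : Omega1 × ℕ) : ℕ :=
  open Classical in
  if h : ∃ j, ∃ hj : j < l.length, ∀ w ∈ l, phi f w.1 z = phi f w.1 l[j] then Nat.find h else 0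

theorem lab_lt (f : Omega1 → Step) (l : List (Omega1 × ℕ)) (hl : 0 < l.length)
    (z : Omega1 × ℕ) : lab f l z < l.length := by
  classical
  unfold lab
  split_ifs with h
  · exact (Nat.find_spec h).choose
  · exact hl

theorem lab_get (f : Omega1 → Step) (l : List (Omega1 × ℕ)) (hl : l.Nodup) (j : ℕ)
    (hj : j < l.length) : lab f l l[j] = j := by
  classical
  unfold lab
  have h : ∃ j', ∃ hj' : j' < l.length, ∀ w ∈ l, phi f w.1 l[j] = phi f w.1 l[j'] :=
    ⟨j, hj, fun _ _ => rfl⟩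
  rw [dif_pos h]
  obtain ⟨h1, h2⟩ := Nat.find_spec h
  have h3 : l[j] = l[Nat.find h] :=
    phi_sep f (h2 _ (List.getElem_mem hj)) (h2 _ (List.getElem_mem h1))
  exact ((List.Nodup.getElem_inj_iff hl).mp h3).symm

theorem lab_congr (f : Omega1 → Step) (l : List (Omega1 × ℕ)) {z z' : Omega1 × ℕ}
    (h : ∀ w ∈ l, phi f w.1 z = phi f w.1 z') : lab f l z = lab f l z' := by
  classical
  unfold lab
  have : (fun j => ∃ hj : j < l.length, ∀ w ∈ l, phi f w.1 z = phi f w.1 l[j]) =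
      fun j => ∃ hj : j < l.length, ∀ w ∈ l, phi f w.1 z' = phi f w.1 l[j] := by
    funext j
    apply propext
    constructor
    · rintro ⟨hj, h'⟩
      exact ⟨hj, fun w hw => (h w hw).symm.trans (h' w hw)⟩
    · rintro ⟨hj, h'⟩
      exact ⟨hj, fun w hw => (h w hw).trans (h' w hw)⟩
  simp only [this]

theorem default_good (A : Omega1 → Set (List (Omega1 × ℕ))) (γ : Omega1) (f : Omega1 → Step)
    (h : ¬ ∃ p > 0, ∀ δ < γ, ∃ l ∈ A γ, l.Nodup ∧ l.length = p ∧ ∀ z ∈ l, δ < z.1 ∧ z.1 < γ) :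
    Good A γ f (1, fun _ => 0) := by
  refine ⟨one_pos, fun _ => one_pos, ?_, fun h' => absurd h' h⟩
  intro l _ i
  by_cases hb : ∀ β, ¬ β < l
  · exact Or.inl hb
  · push Not at hb
    obtain ⟨ν, hν⟩ := hb
    exact Or.inr ⟨ν, hν, fun _ _ _ _ => rfl⟩

/-- coordinates below `γ` are locally constant at points below `γ` -/
theorem phi_coh (A : Omega1 → Set (List (Omega1 × ℕ))) (γ : Omega1) (f : Omega1 → Step)
    (hf : ∀ δ < γ, Good A δ f (f δ)) {l : Omega1} (hl : l < γ) (i : ℕ) (hb : ∃ β, β < l)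
    {ξ : Omega1} (hξ : ξ < γ) :
    ∃ ν < l, ∀ z : Omega1 × ℕ, ν < z.1 → z.1 < l → (f l).2 z = i →
      phi f ξ z = phi f ξ (l, i) := by
  rcases lt_trichotomy ξ l with h | h | h
  · refine ⟨ξ, h, fun z hz _ _ => ?_⟩
    rw [phi_gt f hz, phi_gt f (show ξ < ((l, i) : Omega1 × ℕ).1 from h)]
  · obtain ⟨β, hβ⟩ := hb
    refine ⟨β, hβ, fun z _ hz2 hz3 => ?_⟩
    subst h
    rw [phi_lt f hz2, phi_eq f (show ((ξ, i) : Omega1 × ℕ).1 = ξ from rfl), hz3]
  · rcases (hf ξ hξ).coh l h i with h' | ⟨ν, hν, h'⟩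
    · obtain ⟨β, hβ⟩ := hb
      exact absurd hβ (h' β)
    · refine ⟨ν, hν, fun z hz1 hz2 hz3 => ?_⟩
      rw [phi_lt f (hz2.trans h), phi_lt f (show ((l, i) : Omega1 × ℕ).1 < ξ from h),
        h' z hz1 hz2 hz3]

theorem phi_coh_list (A : Omega1 → Set (List (Omega1 × ℕ))) (γ : Omega1) (f : Omega1 → Step)
    (hf : ∀ δ < γ, Good A δ f (f δ)) {l : Omega1} (hl : l < γ) (i : ℕ) {β : Omega1} (hb : β < l)
    (L : List (Omega1 × ℕ)) (hL : ∀ w ∈ L, w.1 < γ) :
    ∃ ν, β ≤ ν ∧ ν < l ∧ ∀ z : Omega1 × ℕ, ν < z.1 → z.1 < l → (f l).2 z = i →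
      ∀ w ∈ L, phi f w.1 z = phi f w.1 (l, i) := by
  induction L with
  | nil => exact ⟨β, le_rfl, hb, fun z _ _ _ w hw => by simp at hw⟩
  | cons a L ih =>
    obtain ⟨ν, hν0, hν, h1⟩ := ih (fun w hw => hL w (List.mem_cons_of_mem _ hw))
    obtain ⟨ν', hν', h2⟩ := phi_coh A γ f hf hl i ⟨β, hb⟩ (hL a List.mem_cons_self)
    refine ⟨max ν ν', hν0.trans (le_max_left _ _), max_lt hν hν', fun z hz1 hz2 hz3 w hw => ?_⟩
    rcases List.mem_cons.mp hw with h | h
    · rw [h]
      exact h2 z ((le_max_right _ _).trans_lt hz1) hz2 hz3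
    · exact h1 z ((le_max_left _ _).trans_lt hz1) hz2 hz3 w h

theorem exists_step (A : Omega1 → Set (List (Omega1 × ℕ)))
    (hc : ∀ γ : Omega1, (Iio γ).Countable) (γ : Omega1) (f : Omega1 → Step)
    (hf : ∀ δ < γ, Good A δ f (f δ)) : ∃ x, Good A γ f x := by
  classical
  by_cases h : ∃ p > 0, ∀ δ < γ, ∃ l ∈ A γ, l.Nodup ∧ l.length = p ∧ ∀ z ∈ l, δ < z.1 ∧ z.1 < γ
  swap
  · exact ⟨_, default_good A γ f h⟩
  obtain ⟨p, hp, hγ⟩ := h
  by_cases hbot : ∀ β, ¬ β < γ
  · refine ⟨(1, fun _ => 0), one_pos, fun _ => one_pos, ?_, fun _ δ hδ => absurd hδ (hbot δ)⟩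
    intro l hl
    exact absurd hl (hbot l)
  push Not at hbot
  obtain ⟨b0, hb0⟩ := hbot
  -- enumerate the ordinals below `γ`
  obtain ⟨g, hg⟩ := (hc γ).exists_eq_range ⟨b0, hb0⟩
  have hgγ : ∀ k, g k < γ := fun k => by
    have : g k ∈ Iio γ := by rw [hg]; exact mem_range_self k
    exact this
  -- bounds of lists
  have hmax : ∀ L : List (Omega1 × ℕ), (∀ z ∈ L, z.1 < γ) → ∀ δ < γ,
      ∃ m, δ ≤ m ∧ m < γ ∧ ∀ z ∈ L, z.1 ≤ m := by
    intro L hL δ hδ
    induction L with
    | nil => exact ⟨δ, le_rfl, hδ, fun z hz => by simp at hz⟩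
    | cons a L ih =>
      obtain ⟨m, hm0, hm, h1⟩ := ih (fun w hw => hL w (List.mem_cons_of_mem _ hw))
      refine ⟨max m a.1, hm0.trans (le_max_left _ _), max_lt hm (hL a List.mem_cons_self),
        fun z hz => ?_⟩
      rcases List.mem_cons.mp hz with h | h
      · rw [h]; exact le_max_right _ _
      · exact (h1 z h).trans (le_max_left _ _)
  have hstep : ∀ (k : ℕ) (δ : Iio γ), ∃ q : List (Omega1 × ℕ) × Iio γ, q.1 ∈ A γ ∧ q.1.Nodup ∧
      q.1.length = p ∧ (∀ z ∈ q.1, δ.1 < z.1 ∧ g k < z.1 ∧ z.1 ≤ q.2.1) ∧ δ.1 ≤ q.2.1 ∧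
      g k ≤ q.2.1 := by
    rintro k ⟨δ, hδ⟩
    obtain ⟨l, hlA, hnd, hlen, hl⟩ := hγ (max δ (g k)) (max_lt hδ (hgγ k))
    obtain ⟨m, hm1, hm2, hm3⟩ := hmax l (fun z hz => (hl z hz).2) (max δ (g k))
      (max_lt hδ (hgγ k))
    exact ⟨(l, ⟨m, hm2⟩), hlA, hnd, hlen, fun z hz => ⟨(le_max_left _ _).trans_lt (hl z hz).1,
      (le_max_right _ _).trans_lt (hl z hz).1, hm3 z hz⟩, (le_max_left _ _).trans hm1,
      (le_max_right _ _).trans hm1⟩
  choose q hq1 hq2 hq3 hq4 hq5 hq6 using hstep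
  let N : ℕ → Iio γ := fun k => Nat.rec ⟨b0, hb0⟩ (fun k δ => (q k δ).2) k
  have hN : ∀ k, N (k + 1) = (q k (N k)).2 := fun k => rfl
  let L : ℕ → List (Omega1 × ℕ) := fun k => (q k (N k)).1
  have hL1 : ∀ k, L k ∈ A γ := fun k => hq1 k (N k)
  have hL2 : ∀ k, (L k).Nodup := fun k => hq2 k (N k)
  have hL3 : ∀ k, (L k).length = p := fun k => hq3 k (N k)
  have hL4 : ∀ k, ∀ z ∈ L k, (N k).1 < z.1 ∧ g k < z.1 ∧ z.1 ≤ (N (k + 1)).1 :=
    fun k => hq4 k (N k)
  have hNmono : ∀ k, (N k).1 ≤ (N (k + 1)).1 := fun k => hq5 k (N k)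
  have hNmono' : Monotone (fun k => (N k).1) := monotone_nat_of_le_succ hNmono
  have hNcof : ∀ δ < γ, ∃ k, δ ≤ (N k).1 := by
    intro δ hδ
    have : δ ∈ range g := by rw [← hg]; exact hδ
    obtain ⟨k, rfl⟩ := this
    exact ⟨k + 1, hq6 k (N k)⟩
  have hex : ∀ z : Omega1 × ℕ, z.1 < γ → ∃ k, z.1 ≤ (N k).1 := fun z hz => hNcof z.1 hz
  -- labels
  let lb : ℕ → Omega1 × ℕ → ℕ := fun k z => match k with
    | 0 => 0
    | k + 1 => lab f (L k) z
  let c : Omega1 × ℕ → ℕ := fun z => if h : z.1 < γ then lb (Nat.find (hex z h)) z else 0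
  have hcL : ∀ k, ∀ z : Omega1 × ℕ, (N k).1 < z.1 → z.1 ≤ (N (k + 1)).1 →
      c z = lab f (L k) z := by
    intro k z h1 h2
    have hz : z.1 < γ := h2.trans_lt (N (k + 1)).2
    have h3 : Nat.find (hex z hz) = k + 1 := by
      rw [Nat.find_eq_iff]
      refine ⟨h2, fun m hm hcon => ?_⟩
      have : (N m).1 ≤ (N k).1 := hNmono' (Nat.lt_succ_iff.mp hm)
      exact absurd (hcon.trans this) (not_le.mpr h1)
    simp only [c, dif_pos hz, h3, lb]
  have hc0 : ∀ z : Omega1 × ℕ, z.1 ≤ (N 0).1 → c z = 0 := by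
    intro z h1
    have hz : z.1 < γ := h1.trans_lt (N 0).2
    have h3 : Nat.find (hex z hz) = 0 := by
      rw [Nat.find_eq_zero]
      exact h1
    simp only [c, dif_pos hz, h3, lb]
  have hblock : ∀ δ < γ, δ ≤ (N 0).1 ∨ ∃ k, (N k).1 < δ ∧ δ ≤ (N (k + 1)).1 := by
    intro δ hδ
    by_cases h0 : δ ≤ (N 0).1
    · exact Or.inl h0
    · right
      have hk := hNcof δ hδ
      have hpos : Nat.find hk ≠ 0 := by
        intro h
        rw [Nat.find_eq_zero] at h
        exact h0 h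
      obtain ⟨k, hk'⟩ := Nat.exists_eq_succ_of_ne_zero hpos
      refine ⟨k, ?_, ?_⟩
      · have := Nat.find_min hk (m := k) (by omega)
        exact not_le.mp this
      · have := Nat.find_spec hk
        rw [hk'] at this
        exact this
  refine ⟨(p, c), hp, ?_, ?_, ?_⟩
  · intro z
    by_cases hz : z.1 < γ
    · change c z < p
      rcases hblock z.1 hz with h | ⟨k, h1, h2⟩
      · rw [hc0 z h]; exact hp
      · rw [hcL k z h1 h2]
        have := lab_lt f (L k) (by rw [hL3]; exact hp) z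
        rwa [hL3] at this
    · simp only [c, dif_neg hz]; exact hp
  · intro l hl i
    by_cases hbl : ∀ β, ¬ β < l
    · exact Or.inl hbl
    right
    push Not at hbl
    obtain ⟨β, hβ⟩ := hbl
    rcases hblock l hl with h | ⟨k, h1, h2⟩
    · refine ⟨β, hβ, fun z _ hz _ => ?_⟩
      change c z = c (l, i)
      rw [hc0 z (hz.le.trans h), hc0 (l, i) h]
    · have hLγ : ∀ w ∈ L k, w.1 < γ := fun w hw => (hL4 k w hw).2.2.trans_lt (N (k + 1)).2
      obtain ⟨ν, hν0, hν, h3⟩ := phi_coh_list A γ f hf hl i h1 (L k) hLγ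
      refine ⟨ν, hν, fun z hz1 hz2 hz3 => ?_⟩
      change c z = c (l, i)
      rw [hcL k z (hν0.trans_lt hz1) (hz2.le.trans h2), hcL k (l, i) h1 h2]
      exact lab_congr f (L k) (h3 z hz1 hz2 hz3)
  · intro _ δ hδ
    obtain ⟨k, hk⟩ := hNcof δ hδ
    refine ⟨L k, hL1 k, fun z hz => ⟨hk.trans_lt (hL4 k z hz).1,
      (hL4 k z hz).2.2.trans_lt (N (k + 1)).2⟩, fun j hj => ?_⟩
    have hmem := List.getElem_mem hj
    change c (L k)[j] = j
    rw [hcL k _ (hL4 k _ hmem).1 (hL4 k _ hmem).2.2]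
    exact lab_get f (L k) (hL2 k) j hj

theorem exists_data (A : Omega1 → Set (List (Omega1 × ℕ)))
    (hc : ∀ γ : Omega1, (Iio γ).Countable) : ∃ f : Omega1 → Step, ∀ γ, Good A γ f (f γ) := by
  apply exists_rec (R := fun γ f x => Good A γ f x)
  · intro γ f g x hfg h
    refine ⟨h.pos, h.lt, fun l hl i => ?_, h.guess⟩
    have := h.coh l hl i
    rw [hfg l hl] at this
    exact this
  · exact fun γ f hf => exists_step A hc γ f hf

end Pool.Agent.Lib.MP_d61ec6_gt
end

section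

open Set Filter Topology Cardinal
open Pool.Agent.Lib.MP_302921_gt

namespace Pool.Agent.Lib.MP_d61ec6_gt

/-- lists of points whose levels are below `γ` -/
def belowL (γ : Omega1) : Set (List (Omega1 × ℕ)) := {l | ∀ z ∈ l, z.1 < γ}

theorem belowL_countable (γ : Omega1) : (belowL γ).Countable := by
  have h1 : ((Iio γ) ×ˢ (Set.univ : Set ℕ) : Set (Omega1 × ℕ)).Countable :=
    (omega1_Iio_countable γ).prod countable_univ
  have : Countable ((Iio γ) ×ˢ (Set.univ : Set ℕ) : Set (Omega1 × ℕ)) := h1.to_subtype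
  have h2 : (range (fun l : List ((Iio γ) ×ˢ (Set.univ : Set ℕ) : Set (Omega1 × ℕ)) =>
      l.map Subtype.val)).Countable := countable_range _
  refine h2.mono ?_
  intro l hl
  refine ⟨l.attach.map (fun z => ⟨z.1, mk_mem_prod (show z.1.1 ∈ Iio γ from hl z.1 z.2)
    (mem_univ _)⟩), ?_⟩
  simp only [List.map_map, Function.comp_def]
  exact List.attach_map_subtype_val l

/-- the form of `◇` used in the construction -/
theorem guess_list (h : Diamond) :
    ∃ A : Omega1 → Set (List (Omega1 × ℕ)),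
      ∀ (E : Set (List (Omega1 × ℕ))) (F : Omega1 → Omega1),
        ∃ γ, (∃ β, β < γ) ∧ (∀ δ < γ, F δ < γ) ∧ ∀ l ∈ belowL γ, l ∈ E ↔ l ∈ A γ := by
  obtain ⟨A, hA⟩ := h
  have hinj : ∃ c : List (Omega1 × ℕ) → Omega1, Function.Injective c := by
    have h1 : #(Omega1 × ℕ) ≤ ℵ_ 1 := by
      rw [mk_prod, mk_ord_toType, lift_id, mk_nat, lift_aleph0]
      exact (mul_le_mul_right (aleph0_le_aleph 1) _).trans
        (mul_eq_self (aleph0_le_aleph 1)).le
    have h3 : #(List (Omega1 × ℕ)) ≤ #Omega1 := by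
      have hinf : Infinite (Omega1 × ℕ) := by
        have : Nonempty Omega1 := by
          rw [← mk_ne_zero_iff, mk_ord_toType]
          exact (aleph_pos 1).ne'
        exact Prod.infinite_of_right
      rw [mk_list_eq_mk, mk_ord_toType]
      exact h1
    obtain ⟨c⟩ := h3
    exact ⟨c, c.injective⟩
  obtain ⟨c, hc⟩ := hinj
  refine ⟨fun γ => {z | c z ∈ A γ}, fun Y F => ?_⟩
  have hG : ∀ δ : Omega1, ∃ i, F δ < i ∧ ∀ l : List (Omega1 × ℕ),
      (∀ z ∈ l, z.1 ≤ δ) → c l < i := by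
    intro δ
    obtain ⟨ε, hε⟩ := omega1_bound {δ} (countable_singleton _)
    have hδε : δ < ε := hε δ rfl
    obtain ⟨i, hi⟩ := omega1_bound (insert (F δ) (c '' belowL ε))
      (((belowL_countable ε).image c).insert _)
    refine ⟨i, hi _ (mem_insert _ _), ?_⟩
    intro l hl
    exact hi _ (mem_insert_of_mem _ ⟨l, fun z hz => (hl z hz).trans_lt hδε, rfl⟩)
  choose G hG1 hG2 using hG
  obtain ⟨γ, ⟨⟨β, hβ⟩, hγ⟩, hguess⟩ := hA (c '' Y) _ (isClub_closure G)
  refine ⟨γ, ⟨β, hβ⟩, fun δ hδ => (hG1 δ).trans (hγ δ hδ), ?_⟩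
  have hcode : ∀ l ∈ belowL γ, c l < γ := by
    intro l hl
    have hδ : ∃ δ < γ, ∀ z ∈ l, z.1 ≤ δ := by
      clear hguess
      induction l with
      | nil => exact ⟨β, hβ, fun z hz => by simp at hz⟩
      | cons a l ih =>
        obtain ⟨δ, hδ, h1⟩ := ih (fun z hz => hl z (List.mem_cons_of_mem _ hz))
        refine ⟨max δ a.1, max_lt hδ (hl a List.mem_cons_self), fun z hz => ?_⟩
        rcases List.mem_cons.mp hz with h | h
        · rw [h]; exact le_max_right _ _
        · exact (h1 z h).trans (le_max_left _ _)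
    obtain ⟨δ, hδ, h1⟩ := hδ
    exact (hG2 δ l h1).trans (hγ δ hδ)
  intro z hz
  have h1 := hcode z hz
  constructor
  · intro hzY
    have : c z ∈ c '' Y ∩ Iio γ := ⟨⟨z, hzY, rfl⟩, h1⟩
    rw [hguess] at this
    exact this
  · intro hzA
    have : c z ∈ c '' Y ∩ Iio γ := by rw [hguess]; exact hzA
    obtain ⟨⟨w, hw, hwz⟩, -⟩ := this
    rw [← hc hwz]; exact hw

end Pool.Agent.Lib.MP_d61ec6_gt
end

section

open Set Filter Topology
open Pool.Agent.Lib.MP_302921_gt

namespace Pool.Agent.Lib.MP_d61ec6_gt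

/-- the function associated to a point -/
noncomputable def pt (f : Omega1 → Step) (z : Omega1 × ℕ) : Omega1 → ℕ := fun γ => phi f γ z

/-- the underlying set of the space, a subset of a product of discrete spaces -/
def XSet (f : Omega1 → Step) : Set (Omega1 → ℕ) :=
  {x | x = 0 ∨ ∃ z : Omega1 × ℕ, z.2 < (f z.1).1 ∧ x = pt f z}

theorem cont_coord (γ : Omega1) : Continuous (fun x : Omega1 → ℕ => x γ) := continuous_apply γ

theorem pt_injective (f : Omega1 → Step) : Function.Injective (pt f) := fun z w h =>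
  phi_sep f (congrFun h z.1) (congrFun h w.1)

theorem pt_ne_zero (f : Omega1 → Step) (z : Omega1 × ℕ) : pt f z ≠ 0 := by
  intro h
  have h1 := congrFun h z.1
  simp only [pt, Pi.zero_apply] at h1
  rw [phi_eq f rfl] at h1
  omega

theorem XSet_le {A : Omega1 → Set (List (Omega1 × ℕ))} {f : Omega1 → Step}
    (hf : ∀ γ, Good A γ f (f γ)) {x : Omega1 → ℕ} (hx : x ∈ XSet f) (γ : Omega1) :
    x γ ≤ (f γ).1 := by
  rcases hx with rfl | ⟨z, hz, rfl⟩
  · exact Nat.zero_le _
  · simp only [pt, phi]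
    split_ifs with h1 h2
    · exact (hf γ).lt z
    · rw [← h2]; exact hz
    · exact Nat.zero_le _

theorem isClosed_XSet {A : Omega1 → Set (List (Omega1 × ℕ))} {f : Omega1 → Step}
    (hf : ∀ γ, Good A γ f (f γ)) : IsClosed (XSet f) := by
  rw [← closure_subset_iff_isClosed]
  intro y hy
  have hF : ∀ F : Finset Omega1, ∃ x ∈ XSet f, ∀ γ ∈ F, x γ = y γ := by
    intro F
    have hopen : IsOpen {x : Omega1 → ℕ | ∀ γ ∈ F, x γ = y γ} := by
      have : {x : Omega1 → ℕ | ∀ γ ∈ F, x γ = y γ} = ⋂ γ ∈ F, {x | x γ = y γ} := by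
        ext x; simp
      rw [this]
      exact isOpen_biInter_finset fun γ _ =>
        (isOpen_discrete ({y γ} : Set ℕ)).preimage (cont_coord γ)
    obtain ⟨x, hx1, hx2⟩ := mem_closure_iff.mp hy _ hopen (fun γ _ => rfl)
    exact ⟨x, hx2, hx1⟩
  by_cases hy0 : y = 0
  · exact Or.inl hy0
  have hne : ∃ γ, y γ ≠ 0 := by
    by_contra hcon
    push Not at hcon
    exact hy0 (funext hcon)
  have wf : WellFounded (fun i j : Omega1 => i < j) := wellFounded_lt
  obtain ⟨l, hl, hmin⟩ : ∃ l, y l ≠ 0 ∧ ∀ μ < l, y μ = 0 := by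
    refine ⟨wf.min {γ | y γ ≠ 0} hne, wf.min_mem {γ | y γ ≠ 0} hne, fun μ hμ => ?_⟩
    by_contra hcon
    exact wf.not_lt_min {γ | y γ ≠ 0} hcon hμ
  obtain ⟨i, hi⟩ := Nat.exists_eq_succ_of_ne_zero hl
  right
  refine ⟨(l, i), ?_, ?_⟩
  · obtain ⟨x, hx, hxy⟩ := hF {l}
    have h1 := XSet_le hf hx l
    rw [hxy l (by simp), hi] at h1
    exact h1
  · funext μ
    rcases lt_trichotomy μ l with h | h | h
    · rw [hmin μ h]
      simp only [pt]
      exact (phi_gt f h).symm
    · subst h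
      simp only [pt]
      rw [phi_eq f (show ((μ, i) : Omega1 × ℕ).1 = μ from rfl), hi]
    · simp only [pt]
      rw [phi_lt f (show ((l, i) : Omega1 × ℕ).1 < μ from h)]
      -- use coherence
      have key : ∀ z : Omega1 × ℕ, z.1 ≤ l → phi f l z = i + 1 → z.1 = l → z = (l, i) := by
        intro z _ h1 h2
        rw [phi_eq f h2] at h1
        exact Prod.ext h2 (by simpa using h1)
      rcases (hf μ).coh l h i with h' | ⟨ν, hν, h'⟩
      · obtain ⟨x, hx, hxy⟩ := hF {l, μ}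
        have e1 := hxy l (by simp)
        have e2 := hxy μ (by simp)
        rcases hx with rfl | ⟨z, hz, rfl⟩
        · simp only [Pi.zero_apply] at e1; omega
        · simp only [pt] at e1 e2
          have h3 : z.1 ≤ l := by
            by_contra hcon
            rw [phi_gt f (not_le.mp hcon)] at e1; omega
          have h4 : z.1 = l := by
            rcases lt_or_eq_of_le h3 with h5 | h5
            · exact absurd h5 (h' _)
            · exact h5
          have h5 := key z h3 (by rw [e1, hi]) h4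
          rw [← e2, h5, phi_lt f (show ((l, i) : Omega1 × ℕ).1 < μ from h)]
      · obtain ⟨x, hx, hxy⟩ := hF {ν, l, μ}
        have e0 := hxy ν (by simp)
        have e1 := hxy l (by simp)
        have e2 := hxy μ (by simp)
        rw [hmin ν hν] at e0
        rcases hx with rfl | ⟨z, hz, rfl⟩
        · simp only [Pi.zero_apply] at e1; omega
        · simp only [pt] at e0 e1 e2
          have h2 : ν < z.1 := (phi_eq_zero_iff f).mp e0
          have h3 : z.1 ≤ l := by
            by_contra hcon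
            rw [phi_gt f (not_le.mp hcon)] at e1; omega
          rcases lt_or_eq_of_le h3 with h4 | h4
          · have h5 : (f l).2 z = i := by
              rw [phi_lt f h4, hi] at e1
              omega
            rw [← e2, phi_lt f (h4.trans h), h' z h2 h4 h5]
          · have h5 := key z h3 (by rw [e1, hi]) h4
            rw [← e2, h5, phi_lt f (show ((l, i) : Omega1 × ℕ).1 < μ from h)]

theorem isCompact_XSet {A : Omega1 → Set (List (Omega1 × ℕ))} {f : Omega1 → Step}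
    (hf : ∀ γ, Good A γ f (f γ)) : IsCompact (XSet f) := by
  have h1 : IsCompact (pi univ fun γ : Omega1 => Iic (f γ).1) :=
    isCompact_univ_pi fun γ => (finite_Iic _).isCompact
  exact h1.of_isClosed_subset (isClosed_XSet hf) fun x hx γ _ => XSet_le hf hx γ

/-- the set of points of level at most `ν`, with the point at infinity -/
def lowSet (f : Omega1 → Step) (ν : Omega1) : Set (XSet f) := {x | x.1 = 0 ∨ x.1 ν ≠ 0}

theorem isClosed_lowSet (f : Omega1 → Step) (ν : Omega1) : IsClosed (lowSet f ν) := by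
  have h1 : IsClosed {x : XSet f | x.1 = 0} :=
    isClosed_eq continuous_subtype_val continuous_const
  have h2 : IsClosed {x : XSet f | x.1 ν ≠ 0} :=
    (isClosed_discrete ({0}ᶜ : Set ℕ)).preimage ((cont_coord ν).comp continuous_subtype_val)
  exact h1.union h2

theorem exists_low (f : Omega1 → Step) (D : Set (XSet f)) (hD : D.Countable) :
    ∃ ν, D ⊆ lowSet f ν := by
  classical
  have hlev : ∀ x : XSet f, ∃ γ, x.1 = 0 ∨ x.1 γ ≠ 0 := by
    intro x
    by_cases h : x.1 = 0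
    · have : Nonempty Omega1 := by
        rw [← Cardinal.mk_ne_zero_iff, Cardinal.mk_ord_toType]
        exact (Cardinal.aleph_pos 1).ne'
      exact ⟨Classical.arbitrary _, Or.inl h⟩
    · by_contra hcon
      push Not at hcon
      have : Nonempty Omega1 := by
        rw [← Cardinal.mk_ne_zero_iff, Cardinal.mk_ord_toType]
        exact (Cardinal.aleph_pos 1).ne'
      exact h (funext fun γ => (hcon γ).2)
  choose g hg using hlev
  obtain ⟨ν, hν⟩ := omega1_bound (g '' D) (hD.image g)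
  refine ⟨ν, fun x hx => ?_⟩
  rcases hg x with h | h
  · exact Or.inl h
  · right
    have h1 := hν _ ⟨x, hx, rfl⟩
    rcases x.2 with h0 | ⟨z, hz, hxz⟩
    · exact absurd (congrFun h0 (g x)) h
    · rw [hxz] at h ⊢
      simp only [pt] at h ⊢
      intro h2
      rw [phi_eq_zero_iff] at h2
      exact h (phi_gt f (h1.trans h2))

/-- a countable family of coordinates separates the points of `lowSet` -/
theorem lowSet_sep (f : Omega1 → Step) {ν : Omega1} {x y : XSet f} (hx : x ∈ lowSet f ν)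
    (hy : y ∈ lowSet f ν) (h : ∀ γ ≤ ν, x.1 γ = y.1 γ) : x = y := by
  have key : ∀ x : XSet f, x ∈ lowSet f ν → x.1 = 0 ∨ ∃ z : Omega1 × ℕ, z.1 ≤ ν ∧ x.1 = pt f z := by
    intro x hx
    rcases hx with h0 | h0
    · exact Or.inl h0
    · rcases x.2 with h1 | ⟨z, hz, hxz⟩
      · exact Or.inl h1
      · refine Or.inr ⟨z, ?_, hxz⟩
        by_contra hcon
        rw [hxz] at h0
        exact h0 (phi_gt f (not_le.mp hcon))
  apply Subtype.ext
  have h2 : ∀ z : Omega1 × ℕ, pt f z z.1 ≠ 0 := by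
    intro z h3
    simp only [pt] at h3
    rw [phi_eq f rfl] at h3; omega
  rcases key x hx with hx0 | ⟨z, hz, hxz⟩ <;> rcases key y hy with hy0 | ⟨w, hw, hyw⟩
  · rw [hx0, hy0]
  · exfalso
    have := h w.1 hw
    rw [hx0, hyw] at this
    exact h2 w this.symm
  · exfalso
    have := h z.1 hz
    rw [hy0, hxz] at this
    exact h2 z this
  · rw [hxz, hyw] at h ⊢
    rw [phi_sep f (h z.1 hz) (h w.1 hw)]

theorem monolithic_XSet {A : Omega1 → Set (List (Omega1 × ℕ))} {f : Omega1 → Step}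
    (hf : ∀ γ, Good A γ f (f γ)) : Monolithic (XSet f) := by
  classical
  have hcX : CompactSpace (XSet f) := isCompact_iff_compactSpace.mp (isCompact_XSet hf)
  intro D
  by_cases hD : D.Countable
  · obtain ⟨ν, hν⟩ := exists_low f D hD
    have hcl : closure D ⊆ lowSet f ν := closure_minimal hν (isClosed_lowSet f ν)
    have hcs : CompactSpace (closure D) := isCompact_iff_compactSpace.mp isClosed_closure.isCompact
    have hcount : Countable (Iic ν) := (omega1_Iic_countable ν).to_subtype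
    let F : closure D → (Iic ν → ℕ) := fun x γ => x.1.1 γ.1
    have hF : Continuous F := continuous_pi fun γ =>
      (continuous_apply γ.1).comp (continuous_subtype_val.comp continuous_subtype_val)
    have hFi : Function.Injective F := by
      intro x y hxy
      apply Subtype.ext
      exact lowSet_sep f (hcl x.2) (hcl y.2) fun γ hγ => congrFun hxy ⟨γ, hγ⟩
    have hemb := (hF.isClosedEmbedding hFi).isEmbedding
    have hsc : SecondCountableTopology (closure D) := hemb.secondCountableTopology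
    obtain ⟨B, hBc, -, hB⟩ := TopologicalSpace.exists_countable_basis (closure D)
    refine ⟨B, hB, ?_⟩
    exact (Cardinal.le_aleph0_iff_set_countable.mpr hBc).trans (le_max_right _ _)
  · -- a basis of cardinality at most `ℵ₁`
    let b : List (Omega1 × ℕ) → Set (closure D) := fun l => {x | ∀ p ∈ l, x.1.1 p.1 = p.2}
    refine ⟨range b, ?_, ?_⟩
    · apply TopologicalSpace.isTopologicalBasis_of_isOpen_of_nhds
      · rintro _ ⟨l, rfl⟩
        have : b l = ⋂ p ∈ l.toFinset, {x : closure D | x.1.1 p.1 = p.2} := by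
          ext x; simp [b]
        rw [this]
        exact isOpen_biInter_finset fun p _ =>
          (isOpen_discrete ({p.2} : Set ℕ)).preimage ((cont_coord p.1).comp
            (continuous_subtype_val.comp continuous_subtype_val))
      · intro x U hxU hU
        have hemb : IsEmbedding (fun x : closure D => x.1.1) :=
          IsEmbedding.subtypeVal.comp IsEmbedding.subtypeVal
        obtain ⟨V, hV, hVU⟩ := hemb.isOpen_iff.mp hU
        have hxV : x.1.1 ∈ V := by
          have : x ∈ (fun x : closure D => x.1.1) ⁻¹' V := by rw [hVU]; exact hxU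
          exact this
        obtain ⟨I, u, hu, hIV⟩ := isOpen_pi_iff.mp hV x.1.1 hxV
        refine ⟨b (I.toList.map fun γ => (γ, x.1.1 γ)), mem_range_self _, ?_, ?_⟩
        · intro p hp
          obtain ⟨γ, _, rfl⟩ := List.mem_map.mp hp
          rfl
        · intro y hy
          rw [← hVU]
          apply hIV
          intro γ hγ
          have h1 := hy (γ, x.1.1 γ) (List.mem_map.mpr ⟨γ, Finset.mem_toList.mpr hγ, rfl⟩)
          change y.1.1 γ ∈ u γ
          rw [show y.1.1 γ = x.1.1 γ from h1]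
          exact (hu γ hγ).2
    · refine le_trans ?_ (le_max_left _ _)
      have h1 : Cardinal.mk (range b) ≤ Cardinal.aleph 1 := by
        refine Cardinal.mk_range_le.trans ?_
        have hne : Nonempty Omega1 := by
          rw [← Cardinal.mk_ne_zero_iff, Cardinal.mk_ord_toType]
          exact (Cardinal.aleph_pos 1).ne'
        have hinf : Infinite (Omega1 × ℕ) := Prod.infinite_of_right
        rw [Cardinal.mk_list_eq_mk, Cardinal.mk_prod, Cardinal.mk_ord_toType, Cardinal.lift_id,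
          Cardinal.mk_nat, Cardinal.lift_aleph0]
        exact (mul_le_mul_right (Cardinal.aleph0_le_aleph 1) _).trans
          (Cardinal.mul_eq_self (Cardinal.aleph0_le_aleph 1)).le
      refine h1.trans ?_
      by_contra hcon
      push Not at hcon
      apply hD
      rw [← Cardinal.succ_aleph0, Order.lt_succ_iff] at hcon
      exact Cardinal.le_aleph0_iff_set_countable.mp hcon

theorem not_metrizable_XSet {A : Omega1 → Set (List (Omega1 × ℕ))} {f : Omega1 → Step}
    (hf : ∀ γ, Good A γ f (f γ)) : ¬ TopologicalSpace.MetrizableSpace (XSet f) := by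
  intro hm
  have hcX : CompactSpace (XSet f) := isCompact_iff_compactSpace.mp (isCompact_XSet hf)
  let _ := TopologicalSpace.metrizableSpaceMetric (XSet f)
  obtain ⟨D, hDc, hD⟩ := TopologicalSpace.exists_countable_dense (XSet f)
  obtain ⟨ν, hν⟩ := exists_low f D hDc
  obtain ⟨γ, hγ⟩ := omega1_bound {ν} (countable_singleton _)
  have hγ' : ν < γ := hγ ν rfl
  let x : XSet f := ⟨pt f (γ, 0), Or.inr ⟨(γ, 0), (hf γ).pos, rfl⟩⟩
  have h1 : x ∈ closure D := hD x
  have h2 := closure_minimal hν (isClosed_lowSet f ν) h1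
  rcases h2 with h2 | h2
  · exact pt_ne_zero f _ h2
  · exact h2 (phi_gt f hγ')

end Pool.Agent.Lib.MP_d61ec6_gt
end

section

open Set Filter Topology
open Pool.Agent.Lib.MP_302921_gt

namespace Pool.Agent.Lib.MP_d61ec6_gt

theorem countable_lowSet (f : Omega1 → Step) (ν : Omega1) : (lowSet f ν).Countable := by
  have h1 : (insert (0 : Omega1 → ℕ) (pt f '' {z : Omega1 × ℕ | z.1 ≤ ν})).Countable := by
    refine Countable.insert _ (Countable.image ?_ _)
    have : {z : Omega1 × ℕ | z.1 ≤ ν} = (Iic ν) ×ˢ (univ : Set ℕ) := by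
      ext z; simp
    rw [this]
    exact (omega1_Iic_countable ν).prod countable_univ
  refine (h1.preimage_of_injOn (f := fun x : XSet f => x.1)
    (fun x _ y _ h => Subtype.ext h)).mono ?_
  intro x hx
  rcases hx with h0 | h0
  · exact Or.inl h0
  · rcases x.2 with h2 | ⟨z, hz, hxz⟩
    · exact Or.inl h2
    · right
      refine ⟨z, ?_, hxz.symm⟩
      by_contra hcon
      rw [hxz] at h0
      exact h0 (phi_gt f (not_le.mp hcon))

/-- basic open subsets of `C_p(X)` with rational data -/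
def Phi {X : Type} [TopologicalSpace X] (P : Σ m : ℕ, (Fin m → ℚ) × ℕ) (U : Set C(X, ℝ)) : Prop :=
  ∃ (y : Fin P.1 → X) (g : C(X, ℝ)), Function.Injective y ∧
    (∀ i, |g (y i) - P.2.1 i| < 1 / ((P.2.2 : ℝ) + 1)) ∧
    ∀ f : C(X, ℝ), (∀ i, |f (y i) - P.2.1 i| < 1 / ((P.2.2 : ℝ) + 1)) → f ∈ U

theorem exists_Phi {X : Type} [TopologicalSpace X] (U : Set C(X, ℝ))
    (hU : IsOpen[TopologicalSpace.induced (fun f : C(X, ℝ) => (⇑f : X → ℝ))
          (inferInstance : TopologicalSpace (X → ℝ))] U) (hne : U.Nonempty) :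
    ∃ P : Σ m : ℕ, (Fin m → ℚ) × ℕ, Phi P U := by
  classical
  obtain ⟨V, hV, hVU⟩ := isOpen_induced_iff.mp hU
  obtain ⟨g, hg⟩ := hne
  have hgV : (g : X → ℝ) ∈ V := by
    have : g ∈ (fun f : C(X, ℝ) => (⇑f : X → ℝ)) ⁻¹' V := by rw [hVU]; exact hg
    exact this
  obtain ⟨I, u, hu, hIV⟩ := isOpen_pi_iff.mp hV _ hgV
  have hK : ∀ a : X, ∃ K : ℕ, a ∈ I → ∀ s : ℝ, |s - g a| < 2 / ((K : ℝ) + 1) → s ∈ u a := by
    intro a
    by_cases ha : a ∈ I
    · obtain ⟨ε, hε, hball⟩ := Metric.isOpen_iff.mp (hu a ha).1 _ (hu a ha).2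
      obtain ⟨K, hK⟩ := exists_nat_one_div_lt (half_pos hε)
      refine ⟨K, fun _ s hs => hball ?_⟩
      rw [Metric.mem_ball, Real.dist_eq]
      refine hs.trans ?_
      have : (2 : ℝ) / ((K : ℝ) + 1) = 2 * (1 / ((K : ℝ) + 1)) := by ring
      rw [this]
      linarith
    · exact ⟨0, fun h => absurd h ha⟩
  choose K hK using hK
  let k : ℕ := I.sup K
  have hq : ∀ i : Fin I.card, ∃ q : ℚ, |g (I.equivFin.symm i).1 - q| < 1 / ((k : ℝ) + 1) := by
    intro i
    have hpos : (0 : ℝ) < 1 / ((k : ℝ) + 1) := by positivity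
    obtain ⟨q, hq1, hq2⟩ := exists_rat_btwn (show g (I.equivFin.symm i).1 <
      g (I.equivFin.symm i).1 + 1 / ((k : ℝ) + 1) by linarith)
    refine ⟨q, ?_⟩
    rw [abs_lt]
    constructor <;> linarith
  choose q hq using hq
  refine ⟨⟨I.card, q, k⟩, fun i => (I.equivFin.symm i).1, g, ?_, hq, ?_⟩
  · intro i j hij
    exact I.equivFin.symm.injective (Subtype.ext hij)
  · intro f hf
    rw [← hVU]
    apply hIV
    intro a ha
    apply hK a ha
    have h1 := hf (I.equivFin ⟨a, ha⟩)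
    have h2 := hq (I.equivFin ⟨a, ha⟩)
    simp only [Equiv.symm_apply_apply] at h1 h2
    have h3 : (1 : ℝ) / ((k : ℝ) + 1) ≤ 1 / ((K a : ℝ) + 1) := by
      apply one_div_le_one_div_of_le (by positivity)
      have : (K a : ℝ) ≤ k := by exact_mod_cast Finset.le_sup (f := K) ha
      linarith
    have h4 : (2 : ℝ) / ((K a : ℝ) + 1) = 2 * (1 / ((K a : ℝ) + 1)) := by ring
    rw [h4]
    rw [abs_lt] at h1 h2 ⊢
    constructor <;> linarith

theorem cp_XSet {A : Omega1 → Set (List (Omega1 × ℕ))} {f : Omega1 → Step}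
    (hf : ∀ γ, Good A γ f (f γ))
    (hA : ∀ (E : Set (List (Omega1 × ℕ))) (F : Omega1 → Omega1),
        ∃ γ, (∃ β, β < γ) ∧ (∀ δ < γ, F δ < γ) ∧ ∀ l ∈ belowL γ, l ∈ E ↔ l ∈ A γ) :
    CpPointFiniteCountable (XSet f) := by
  classical
  intro 𝒰 hopen hfin
  by_contra hunc
  -- rational data
  obtain ⟨⟨m, q, k⟩, hP⟩ : ∃ P : Σ m : ℕ, (Fin m → ℚ) × ℕ, ¬ {U | U ∈ 𝒰 ∧ Phi P U}.Countable := by
    by_contra hcon
    push Not at hcon
    apply hunc
    refine (countable_iUnion hcon).mono ?_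
    intro U hU
    obtain ⟨P, hP⟩ := exists_Phi U (hopen U hU).1 (hopen U hU).2
    exact mem_iUnion.mpr ⟨P, hU, hP⟩
  set 𝒱 : Set (Set C(XSet f, ℝ)) := {U | U ∈ 𝒰 ∧ Phi ⟨m, q, k⟩ U} with h𝒱
  have hdata : ∀ U : Set C(XSet f, ℝ), ∃ (y : Fin m → XSet f) (g : C(XSet f, ℝ)), U ∈ 𝒱 →
      Function.Injective y ∧ (∀ i, |g (y i) - q i| < 1 / ((k : ℝ) + 1)) ∧
      ∀ f' : C(XSet f, ℝ), (∀ i, |f' (y i) - q i| < 1 / ((k : ℝ) + 1)) → f' ∈ U := by
    intro U
    by_cases hU : U ∈ 𝒱
    · obtain ⟨y, g, h⟩ := hU.2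
      exact ⟨y, g, fun _ => h⟩
    · exact ⟨fun _ => ⟨0, Or.inl rfl⟩, 0, fun h => absurd h hU⟩
  choose y g hyg using hdata
  -- the root
  let H : Finset (Fin m) → (Fin m → XSet f) → Set (Set C(XSet f, ℝ)) := fun R r =>
    {U | U ∈ 𝒱 ∧ ∀ i ∈ R, y U i = r i}
  obtain ⟨R, hR⟩ := (Finset.univ.filter (fun R : Finset (Fin m) =>
    ∃ r, ¬ (H R r).Countable)).exists_maximal ⟨∅, by
      rw [Finset.mem_filter]
      refine ⟨Finset.mem_univ _, fun _ => ⟨0, Or.inl rfl⟩, ?_⟩
      have : H ∅ (fun _ => ⟨0, Or.inl rfl⟩) = 𝒱 := by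
        ext U; simp [H]
      rw [this]
      exact hP⟩
  have hR1 : ∃ r, ¬ (H R r).Countable := (Finset.mem_filter.mp hR.prop).2
  obtain ⟨r, hr⟩ := hR1
  have hcount : ∀ i ∉ R, ∀ x, {U | U ∈ H R r ∧ y U i = x}.Countable := by
    intro i hi x
    by_contra hcon
    have h1 : insert i R ∈ Finset.univ.filter (fun R : Finset (Fin m) =>
        ∃ r, ¬ (H R r).Countable) := by
      rw [Finset.mem_filter]
      refine ⟨Finset.mem_univ _, Function.update r i x, ?_⟩
      intro hc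
      apply hcon
      refine hc.mono ?_
      rintro U ⟨⟨hU, hUr⟩, hUi⟩
      refine ⟨hU, fun j hj => ?_⟩
      rcases Finset.mem_insert.mp hj with h | h
      · subst h; simpa using hUi
      · have : j ≠ i := fun h' => hi (h' ▸ h)
        rw [Function.update_of_ne this]
        exact hUr j h
    have h2 := hR.le_of_ge h1 (Finset.subset_insert _ _)
    exact hi (h2 (Finset.mem_insert_self _ _))
  have hHne : (H R r).Nonempty := by
    by_contra hcon
    rw [not_nonempty_iff_eq_empty] at hcon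
    rw [hcon] at hr
    exact hr countable_empty
  obtain ⟨U0, hU0⟩ := hHne
  -- the moving part
  set p : ℕ := (Rᶜ).card with hp
  let e : Fin p → Fin m := fun j => ((Rᶜ).equivFin.symm j).1
  have he1 : ∀ j, e j ∉ R := fun j => Finset.mem_compl.mp ((Rᶜ).equivFin.symm j).2
  have he2 : Function.Injective e := fun i j hij => (Rᶜ).equivFin.symm.injective (Subtype.ext hij)
  have he3 : ∀ i ∉ R, ∃ j, e j = i := by
    intro i hi
    refine ⟨(Rᶜ).equivFin ⟨i, Finset.mem_compl.mpr hi⟩, ?_⟩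
    simp [e]
  have hppos : 0 < p := by
    by_contra hcon
    have hp0 : p = 0 := by omega
    have hRu : ∀ i, i ∈ R := by
      intro i
      by_contra hi
      obtain ⟨j, -⟩ := he3 i hi
      exact absurd j.2 (by omega)
    apply hr
    refine ((hfin (g U0)).subset ?_).countable
    rintro U ⟨hU, hUr⟩
    refine ⟨hU.1, (hyg U hU).2.2 _ fun i => ?_⟩
    rw [hUr i (hRu i), ← hU0.2 i (hRu i)]
    exact (hyg U0 hU0.1).2.1 i
  -- choose points
  have hz : ∀ x : XSet f, ∃ z : Omega1 × ℕ, x.1 ≠ 0 → x.1 = pt f z := by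
    intro x
    rcases x.2 with h | ⟨z, _, h⟩
    · have : Nonempty Omega1 := by
        rw [← Cardinal.mk_ne_zero_iff, Cardinal.mk_ord_toType]
        exact (Cardinal.aleph_pos 1).ne'
      exact ⟨(Classical.arbitrary _, 0), fun h' => absurd h h'⟩
    · exact ⟨z, fun _ => h⟩
  choose zo hzo using hz
  let t : Set C(XSet f, ℝ) → List (Omega1 × ℕ) := fun U => List.ofFn fun j => zo (y U (e j))
  let E : Set (List (Omega1 × ℕ)) := {l | ∃ U ∈ H R r, (∀ j, (y U (e j)).1 ≠ 0) ∧ l = t U}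
  -- tuples of high level
  have hhigh : ∀ δ, ∃ U ∈ H R r, ∀ j, y U (e j) ∉ lowSet f δ := by
    intro δ
    by_contra hcon
    push Not at hcon
    apply hr
    have : (⋃ j : Fin p, ⋃ x ∈ lowSet f δ, {U | U ∈ H R r ∧ y U (e j) = x}).Countable :=
      countable_iUnion fun j => (countable_lowSet f δ).biUnion fun x _ => hcount _ (he1 j) x
    refine this.mono ?_
    intro U hU
    obtain ⟨j, hj⟩ := hcon U hU
    exact mem_iUnion.mpr ⟨j, mem_biUnion hj ⟨hU, rfl⟩⟩
  choose W hW1 hW2 using hhigh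
  have hnl : ∀ (x : XSet f) (δ : Omega1), x ∉ lowSet f δ → x.1 ≠ 0 ∧ δ < (zo x).1 := by
    intro x δ hx
    have h1 : x.1 ≠ 0 := fun h => hx (Or.inl h)
    refine ⟨h1, ?_⟩
    have h2 : x.1 δ = 0 := by
      by_contra h
      exact hx (Or.inr h)
    rw [hzo x h1] at h2
    exact (phi_eq_zero_iff f).mp h2
  -- the level of the root
  obtain ⟨ρ, hρ⟩ := exists_low f (range r) (countable_range r)
  have hF : ∀ δ, ∃ i, ρ < i ∧ ∀ z ∈ t (W δ), z.1 < i := by
    intro δ
    obtain ⟨i, hi⟩ := omega1_bound (insert ρ (Prod.fst '' {z | z ∈ t (W δ)}))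
      (((List.finite_toSet _).countable.image _).insert _)
    exact ⟨i, hi _ (mem_insert _ _), fun z hz => hi _ (mem_insert_of_mem _ ⟨z, hz, rfl⟩)⟩
  choose F hF1 hF2 using hF
  obtain ⟨γ, ⟨β, hβ⟩, hγF, hguess⟩ := hA E F
  have hργ : ρ < γ := (hF1 β).trans (hγF β hβ)
  have hmemt : ∀ U, ∀ z ∈ t U, ∃ j, z = zo (y U (e j)) := by
    intro U z hz
    obtain ⟨j, hj⟩ := (List.mem_ofFn' _ _).mp hz
    exact ⟨j, hj.symm⟩
  have hant : ∃ p > 0, ∀ δ < γ, ∃ l ∈ A γ, l.Nodup ∧ l.length = p ∧ ∀ z ∈ l, δ < z.1 ∧ z.1 < γ := by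
    refine ⟨p, hppos, fun δ hδ => ⟨t (W δ), ?_, ?_, List.length_ofFn, ?_⟩⟩
    · have h1 : t (W δ) ∈ belowL γ := fun z hz => (hF2 δ z hz).trans (hγF δ hδ)
      rw [← hguess _ h1]
      exact ⟨W δ, hW1 δ, fun j => (hnl _ δ (hW2 δ j)).1, rfl⟩
    · rw [List.nodup_ofFn]
      intro i j hij
      apply he2
      apply (hyg (W δ) (hW1 δ).1).1
      apply Subtype.ext
      rw [hzo _ (hnl _ δ (hW2 δ i)).1, hzo _ (hnl _ δ (hW2 δ j)).1]
      exact congrArg _ hij
    · intro z hz
      refine ⟨?_, (hF2 δ z hz).trans (hγF δ hδ)⟩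
      obtain ⟨j, rfl⟩ := hmemt _ z hz
      exact (hnl _ δ (hW2 δ j)).2
  have hcon := (hf γ).guess hant
  -- the function
  let c : ℕ → ℝ := fun b => if h : b - 1 < p then (q (e ⟨b - 1, h⟩) : ℝ) else 0
  let V : Set (XSet f) := {x | x.1 ρ = 0 ∧ x.1 γ ≠ 0}
  have hV : IsClopen V := by
    have h1 : IsClopen {x : XSet f | x.1 ρ = 0} :=
      ((isClopen_discrete ({0} : Set ℕ)).preimage ((cont_coord ρ).comp continuous_subtype_val))
    have h2 : IsClopen {x : XSet f | x.1 γ ≠ 0} :=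
      ((isClopen_discrete ({0}ᶜ : Set ℕ)).preimage ((cont_coord γ).comp continuous_subtype_val))
    exact h1.inter h2
  let φ : C(XSet f, ℝ) := ⟨fun x => if x ∈ V then c (x.1 γ) else g U0 x, by
    apply Continuous.if
    · intro a ha
      have : frontier {a : XSet f | a ∈ V} = ∅ := hV.frontier_eq
      rw [this] at ha
      exact absurd ha (notMem_empty _)
    · exact (continuous_of_discreteTopology (f := c)).comp
        ((cont_coord γ).comp continuous_subtype_val)
    · exact (g U0).continuous⟩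
  have hφU : ∀ l ∈ A γ, (∀ z ∈ l, ρ < z.1 ∧ z.1 < γ) →
      (∀ (j : ℕ) (hj : j < l.length), (f γ).2 l[j] = j) →
      ∃ U ∈ H R r, φ ∈ U ∧ l = t U := by
    intro l hl hlev hlab
    have h1 : l ∈ E := (hguess l fun z hz => (hlev z hz).2).mpr hl
    obtain ⟨U, hU, hne, rfl⟩ := h1
    refine ⟨U, hU, (hyg U hU.1).2.2 φ fun i => ?_, rfl⟩
    by_cases hi : i ∈ R
    · have h2 : y U i = r i := hU.2 i hi
      have h3 : r i ∉ V := by
        rintro ⟨h4, h5⟩
        rcases hρ (mem_range_self i) with h6 | h6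
        · exact h5 (congrFun h6 γ)
        · exact h6 h4
      have h4 : φ (y U i) = g U0 (r i) := by
        change (if y U i ∈ V then c ((y U i).1 γ) else g U0 (y U i)) = _
        rw [h2, if_neg h3]
      rw [h4, ← hU0.2 i hi]
      exact (hyg U0 hU0.1).2.1 i
    · obtain ⟨j, rfl⟩ := he3 i hi
      have hlen : (t U).length = p := List.length_ofFn
      have hget : (t U)[j.1]'(by rw [hlen]; exact j.2) = zo (y U (e j)) := by
        simp [t]
      have hmem : zo (y U (e j)) ∈ t U := by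
        rw [← hget]; exact List.getElem_mem _
      have h2 := hlab j.1 (by rw [hlen]; exact j.2)
      rw [hget] at h2
      have h3 : (y U (e j)).1 = pt f (zo (y U (e j))) := hzo _ (hne j)
      have h4 : (y U (e j)).1 ρ = 0 := by
        rw [h3]; exact phi_gt f (hlev _ hmem).1
      have h5 : (y U (e j)).1 γ = j.1 + 1 := by
        rw [h3]
        change phi f γ _ = _
        rw [phi_lt f (hlev _ hmem).2, h2]
      have h6 : y U (e j) ∈ V := ⟨h4, by rw [h5]; omega⟩
      have h7 : φ (y U (e j)) = q (e j) := by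
        change (if y U (e j) ∈ V then c ((y U (e j)).1 γ) else g U0 (y U (e j))) = _
        rw [if_pos h6, h5]
        simp [c]
      rw [h7, sub_self, abs_zero]
      positivity
  -- infinitely many members contain `φ`
  have hT := hfin φ
  let LU : Set C(XSet f, ℝ) → Omega1 := fun U => (zo (y U (e ⟨0, hppos⟩))).1
  have hbound : ∀ T : Set (Set C(XSet f, ℝ)), T.Finite →
      ∃ δ, ρ ≤ δ ∧ δ < γ ∧ ∀ U ∈ T, LU U < γ → LU U ≤ δ := by
    intro T hT
    induction T, hT using Set.Finite.induction_on with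
    | empty => exact ⟨ρ, le_rfl, hργ, fun U hU => absurd hU (notMem_empty _)⟩
    | @insert a T _ _ ih =>
      obtain ⟨δ, h1, h2, h3⟩ := ih
      by_cases ha : LU a < γ
      · refine ⟨max δ (LU a), h1.trans (le_max_left _ _), max_lt h2 ha, fun U hU hUγ => ?_⟩
        rcases hU with rfl | hU
        · exact le_max_right _ _
        · exact (h3 U hU hUγ).trans (le_max_left _ _)
      · refine ⟨δ, h1, h2, fun U hU hUγ => ?_⟩
        rcases hU with rfl | hU
        · exact absurd hUγ ha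
        · exact h3 U hU hUγ
  obtain ⟨δ, hδ1, hδ2, hδ3⟩ := hbound _ hT
  obtain ⟨l, hl, hlev, hlab⟩ := hcon δ hδ2
  obtain ⟨U, hU, hφ, rfl⟩ := hφU l hl (fun z hz => ⟨hδ1.trans_lt (hlev z hz).1, (hlev z hz).2⟩) hlab
  have hlen : (t U).length = p := List.length_ofFn
  have hget : (t U)[0]'(by rw [hlen]; exact hppos) = zo (y U (e ⟨0, hppos⟩)) := by
    simp [t]
  have hmem : zo (y U (e ⟨0, hppos⟩)) ∈ t U := by
    rw [← hget]; exact List.getElem_mem _
  have h1 := hlev _ hmem
  exact absurd (hδ3 U ⟨hU.1.1, hφ⟩ h1.2) (not_le.mpr h1.1)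

/-- `◇` implies a negative answer. -/
theorem diamond_example (h : Diamond) : ∃ (X : Type) (_ : TopologicalSpace X), CompactSpace X ∧
    T2Space X ∧ Monolithic X ∧ CpPointFiniteCountable X ∧
    ¬ TopologicalSpace.MetrizableSpace X := by
  obtain ⟨A, hA⟩ := guess_list h
  obtain ⟨f, hf⟩ := exists_data A omega1_Iio_countable
  exact ⟨XSet f, inferInstance, isCompact_iff_compactSpace.mp (isCompact_XSet hf), inferInstance,
    monolithic_XSet hf, cp_XSet hf hA, not_metrizable_XSet hf⟩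

end Pool.Agent.Lib.MP_d61ec6_gt
end
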