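import Mathlib
import Pool.Agent.Lib.MP_d107a2_lc.Core
import Pool.Agent.Lib.MP_d61ec6_gt.Defs

open Set Filter Topology
open Pool.Agent.Lib.MP_d107a2_lc

namespace Pool.Agent.Lib.MP_d61ec6_gt

variable {X : Type} [TopologicalSpace X]

theorem Monolithic.secondCountable (hm : Monolithic X) {A : Set X} (hA : A.Countable) :
    SecondCountableTopology (closure A) := by
  obtain ⟨B, hB, hc⟩ := hm A
  have h1 : Cardinal.mk ↥B ≤ Cardinal.aleph0 := by
    refine hc.trans (max_le ?_ le_rfl)
    exact Cardinal.le_aleph0_iff_set_countable.mpr hA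
  exact hB.secondCountableTopology (Cardinal.le_aleph0_iff_set_countable.mp h1)

variable [CompactSpace X] [T2Space X]

theorem Monolithic.seqCompact (hm : Monolithic X) : SeqCompactSpace X := by
  refine ⟨fun x _ => ?_⟩
  have hsc := hm.secondCountable (countable_range x)
  have hcs : CompactSpace (closure (range x)) := isCompact_iff_compactSpace.mp
    isClosed_closure.isCompact
  let y : ℕ → closure (range x) := fun n => ⟨x n, subset_closure (mem_range_self n)⟩
  obtain ⟨a, φ, hφ, ha⟩ := SeqCompactSpace.tendsto_subseq y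
  exact ⟨a.1, trivial, φ, hφ, (continuous_subtype_val.tendsto a).comp ha⟩

/-- sequential closures in squares of monolithic compacta are sequentially closed -/
theorem Monolithic.isSeqClosed_seqClosure (hm : Monolithic X) (P : Set (X × X)) :
    IsSeqClosed (seqClosure P) := by
  intro r φ hr hφ
  choose s hsP hs using hr
  let D : Set X := (⋃ k, range (fun j => (s k j).1)) ∪ (⋃ k, range (fun j => (s k j).2))
  have hD : D.Countable := (countable_iUnion fun k => countable_range _).union
    (countable_iUnion fun k => countable_range _)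
  have hsc := hm.secondCountable hD
  have hcs : CompactSpace (closure D) := isCompact_iff_compactSpace.mp
    isClosed_closure.isCompact
  let PK : Set (closure D × closure D) := {z | ((z.1 : X), (z.2 : X)) ∈ P}
  have h1 : ∀ k j, (s k j).1 ∈ D ∧ (s k j).2 ∈ D := fun k j =>
    ⟨Or.inl (mem_iUnion.mpr ⟨k, j, rfl⟩), Or.inr (mem_iUnion.mpr ⟨k, j, rfl⟩)⟩
  have hr1 : ∀ k, (r k).1 ∈ closure D ∧ (r k).2 ∈ closure D := by
    intro k
    constructor
    · exact mem_closure_of_tendsto ((continuous_fst.tendsto _).comp (hs k))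
        (Eventually.of_forall fun j => (h1 k j).1)
    · exact mem_closure_of_tendsto ((continuous_snd.tendsto _).comp (hs k))
        (Eventually.of_forall fun j => (h1 k j).2)
  have hφ1 : φ.1 ∈ closure D ∧ φ.2 ∈ closure D := by
    constructor
    · exact isClosed_closure.mem_of_tendsto ((continuous_fst.tendsto _).comp hφ)
        (Eventually.of_forall fun k => (hr1 k).1)
    · exact isClosed_closure.mem_of_tendsto ((continuous_snd.tendsto _).comp hφ)
        (Eventually.of_forall fun k => (hr1 k).2)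
  have hemb : IsEmbedding (fun z : closure D × closure D => ((z.1 : X), (z.2 : X))) :=
    IsEmbedding.subtypeVal.prodMap IsEmbedding.subtypeVal
  let rK : ℕ → closure D × closure D := fun k => (⟨(r k).1, (hr1 k).1⟩, ⟨(r k).2, (hr1 k).2⟩)
  let φK : closure D × closure D := (⟨φ.1, hφ1.1⟩, ⟨φ.2, hφ1.2⟩)
  have hrK : ∀ k, rK k ∈ closure PK := by
    intro k
    let sK : ℕ → closure D × closure D := fun j =>
      (⟨(s k j).1, subset_closure (h1 k j).1⟩, ⟨(s k j).2, subset_closure (h1 k j).2⟩)
    have : Tendsto sK atTop (𝓝 (rK k)) := by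
      rw [hemb.tendsto_nhds_iff]
      exact hs k
    exact mem_closure_of_tendsto this (Eventually.of_forall fun j => hsP k j)
  have hφK : φK ∈ closure PK := by
    have : Tendsto rK atTop (𝓝 φK) := by
      rw [hemb.tendsto_nhds_iff]
      exact hφ
    exact isClosed_closure.mem_of_tendsto this (Eventually.of_forall hrK)
  rw [mem_closure_iff_seq_limit] at hφK
  obtain ⟨t, ht, hlim⟩ := hφK
  refine ⟨fun j => ((t j).1, (t j).2), ht, ?_⟩
  exact (hemb.tendsto_nhds_iff.mp hlim)

theorem exists_separating_continuous {x y : X} (h : x ≠ y) : ∃ f : C(X, ℝ), f x ≠ f y := by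
  obtain ⟨f, hf1, hf2, -⟩ := exists_continuous_zero_one_of_isClosed (isClosed_singleton (x := x))
    (isClosed_singleton (x := y)) (by simpa using h)
  refine ⟨f, ?_⟩
  rw [hf1 rfl, hf2 rfl]
  simp

/-- the ideal of countable sets of pairs which converge to the diagonal -/
def diagIdeal (X : Type) [TopologicalSpace X] : Set (Set {z : X × X // z.1 ≠ z.2}) :=
  {A | A.Countable ∧ ∀ (f : C(X, ℝ)) (ε : ℝ), 0 < ε →
    {z | z ∈ A ∧ ε ≤ |f z.1.1 - f z.1.2|}.Finite}

theorem Monolithic.isPIdeal (hm : Monolithic X) : IsPIdeal (diagIdeal X) := by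
  refine ⟨⟨fun A hA => hA.1, fun A hA => ⟨hA.countable, fun f ε _ => hA.subset fun z hz => hz.1⟩,
    fun A hA B hB => ⟨hA.1.mono hB, fun f ε hε => (hA.2 f ε hε).subset
      fun z hz => ⟨hB hz.1, hz.2⟩⟩, fun A hA B hB => ⟨hA.1.union hB.1, fun f ε hε => ?_⟩⟩, ?_⟩
  · refine ((hA.2 f ε hε).union (hB.2 f ε hε)).subset ?_
    rintro z ⟨hz | hz, h⟩
    · exact Or.inl ⟨hz, h⟩
    · exact Or.inr ⟨hz, h⟩
  · intro A hA
    let D : Set X := ⋃ n, ((fun z : {z : X × X // z.1 ≠ z.2} => z.1.1) '' A n ∪
      (fun z : {z : X × X // z.1 ≠ z.2} => z.1.2) '' A n)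
    have hD : D.Countable := countable_iUnion fun n => ((hA n).1.image _).union ((hA n).1.image _)
    have hsc := hm.secondCountable hD
    have hcs : CompactSpace (closure D) := isCompact_iff_compactSpace.mp
      isClosed_closure.isCompact
    have hDn : ∀ n, ∀ z ∈ A n, z.1.1 ∈ closure D ∧ z.1.2 ∈ closure D := fun n z hz =>
      ⟨subset_closure (mem_iUnion.mpr ⟨n, Or.inl ⟨z, hz, rfl⟩⟩),
        subset_closure (mem_iUnion.mpr ⟨n, Or.inr ⟨z, hz, rfl⟩⟩)⟩
    obtain ⟨g, hg⟩ := TopologicalSpace.exists_dense_seq C(closure D, ℝ)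
    -- extend the functions to `X`
    have hext : ∀ k, ∃ G : C(X, ℝ), G.restrict (closure D) = g k := fun k =>
      ContinuousMap.exists_restrict_eq isClosed_closure (g k)
    choose G hG using hext
    let E : ℕ → Set {z : X × X // z.1 ≠ z.2} := fun n =>
      {z | z ∈ A n ∧ ∀ k ≤ n, |G k z.1.1 - G k z.1.2| < 1 / ((n : ℝ) + 1)}
    refine ⟨⋃ n, E n, ⟨countable_iUnion fun n => (hA n).1.mono fun z hz => hz.1, ?_⟩, ?_⟩
    · intro f ε hε
      -- approximate
      obtain ⟨k, hk⟩ : ∃ k, ‖f.restrict (closure D) - g k‖ < ε / 4 := by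
        obtain ⟨k, hk⟩ := hg.exists_dist_lt (f.restrict (closure D)) (by positivity : 0 < ε / 4)
        exact ⟨k, by rwa [← dist_eq_norm]⟩
      obtain ⟨N, hN⟩ := exists_nat_one_div_lt (by positivity : 0 < ε / 2)
      have hclose : ∀ x ∈ closure D, |f x - G k x| < ε / 4 := by
        intro x hx
        have h1 := ContinuousMap.norm_coe_le_norm (f.restrict (closure D) - g k) ⟨x, hx⟩
        have h2 : (f.restrict (closure D) - g k) ⟨x, hx⟩ = f x - G k x := by
          rw [← hG k]; rfl
        rw [h2, Real.norm_eq_abs] at h1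
        exact h1.trans_lt hk
      have hfin : (⋃ n ∈ Finset.range (max k N), {z | z ∈ A n ∧ ε ≤ |f z.1.1 - f z.1.2|}).Finite :=
        (Finset.range (max k N)).finite_toSet.biUnion fun n _ => (hA n).2 f ε hε
      refine hfin.subset ?_
      rintro z ⟨hz, hεz⟩
      obtain ⟨n, hzn, hz2⟩ := mem_iUnion.mp hz
      by_cases hn : n < max k N
      · exact mem_biUnion (Finset.mem_coe.mpr (Finset.mem_range.mpr hn)) ⟨hzn, hεz⟩
      · exfalso
        push Not at hn
        have h1 := hz2 k ((le_max_left _ _).trans hn)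
        have h2 : (1 : ℝ) / ((n : ℝ) + 1) ≤ 1 / ((N : ℝ) + 1) := by
          apply one_div_le_one_div_of_le (by positivity)
          have : (N : ℝ) ≤ n := by exact_mod_cast (le_max_right _ _).trans hn
          linarith
        have h3 := hclose _ (hDn n z hzn).1
        have h4 := hclose _ (hDn n z hzn).2
        rw [abs_lt] at h1 h3 h4
        have h5 : |f z.1.1 - f z.1.2| < ε := by
          rw [abs_lt]
          constructor <;> linarith [h1.1, h1.2, h3.1, h3.2, h4.1, h4.2]
        exact absurd hεz (not_le.mpr h5)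
    · intro n
      have hfin : (⋃ k ∈ Finset.range (n + 1),
          {z | z ∈ A n ∧ 1 / ((n : ℝ) + 1) ≤ |G k z.1.1 - G k z.1.2|}).Finite :=
        (Finset.range (n + 1)).finite_toSet.biUnion fun k _ => (hA n).2 (G k) _ (by positivity)
      refine hfin.subset ?_
      rintro z ⟨hz, hzn⟩
      have h1 : z ∉ E n := fun h => hzn (mem_iUnion.mpr ⟨n, h⟩)
      have h2 : ∃ k ≤ n, 1 / ((n : ℝ) + 1) ≤ |G k z.1.1 - G k z.1.2| := by
        by_contra hcon
        push Not at hcon
        exact h1 ⟨hz, hcon⟩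
      obtain ⟨k, hk, hk2⟩ := h2
      exact mem_biUnion (Finset.mem_coe.mpr (Finset.mem_range.mpr (Nat.lt_succ_of_le hk))) ⟨hz, hk2⟩

/-- the first alternative contradicts countable point-finite cellularity -/
theorem no_first_alt (hp : CpPointFiniteCountable X) (T : Set {z : X × X // z.1 ≠ z.2})
    (hT : ¬ T.Countable) (hTI : ∀ A ⊆ T, A.Countable → A ∈ diagIdeal X) : False := by
  have hfinT : ∀ (f : C(X, ℝ)) (ε : ℝ), 0 < ε →
      {z | z ∈ T ∧ ε ≤ |f z.1.1 - f z.1.2|}.Finite := by
    intro f ε hε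
    by_contra hcon
    obtain ⟨A, hA, hAc, hAi⟩ : ∃ A ⊆ {z | z ∈ T ∧ ε ≤ |f z.1.1 - f z.1.2|},
        A.Countable ∧ A.Infinite := by
      have hinf : {z | z ∈ T ∧ ε ≤ |f z.1.1 - f z.1.2|}.Infinite := hcon
      let e := hinf.natEmbedding
      refine ⟨range fun n => ((e n : _) : {z : X × X // z.1 ≠ z.2}), ?_, countable_range _, ?_⟩
      · rintro _ ⟨n, rfl⟩
        exact (e n).2
      · exact infinite_range_of_injective fun a b hab => e.injective (Subtype.ext hab)
    have h1 := hTI A (fun z hz => (hA hz).1) hAc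
    refine hAi ((h1.2 f ε hε).subset fun z hz => ⟨hz, (hA hz).2⟩)
  let U : {z : X × X // z.1 ≠ z.2} → Set C(X, ℝ) := fun z => {f | 1 < f z.1.1 - f z.1.2}
  have hopen : ∀ z, IsOpen[TopologicalSpace.induced (fun f : C(X, ℝ) => (⇑f : X → ℝ))
          (inferInstance : TopologicalSpace (X → ℝ))] (U z) := by
    intro z
    refine isOpen_induced_iff.mpr ⟨{f | 1 < f z.1.1 - f z.1.2}, ?_, rfl⟩
    exact isOpen_lt continuous_const ((continuous_apply _).sub (continuous_apply _))
  have hne : ∀ z, (U z).Nonempty := by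
    intro z
    obtain ⟨f, hf⟩ := exists_separating_continuous z.2
    refine ⟨(2 / (f z.1.1 - f z.1.2)) • f, ?_⟩
    have h1 : f z.1.1 - f z.1.2 ≠ 0 := sub_ne_zero.mpr hf
    have h2 : (2 / (f z.1.1 - f z.1.2)) * f z.1.1 - (2 / (f z.1.1 - f z.1.2)) * f z.1.2 = 2 := by
      rw [← mul_sub, div_mul_cancel₀ _ h1]
    change 1 < (2 / (f z.1.1 - f z.1.2)) * f z.1.1 - (2 / (f z.1.1 - f z.1.2)) * f z.1.2
    rw [h2]
    norm_num
  have hfU : ∀ f : C(X, ℝ), {z | z ∈ T ∧ f ∈ U z}.Finite := by
    intro f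
    refine (hfinT f 1 one_pos).subset ?_
    rintro z ⟨hz, hf⟩
    exact ⟨hz, (le_of_lt hf).trans (le_abs_self _)⟩
  have hcount : (U '' T).Countable := by
    apply hp
    · rintro _ ⟨z, _, rfl⟩
      exact ⟨hopen z, hne z⟩
    · intro f
      refine ((hfU f).image U).subset ?_
      rintro _ ⟨⟨z, hz, rfl⟩, hf⟩
      exact ⟨z, ⟨hz, hf⟩, rfl⟩
  apply hT
  have : T ⊆ ⋃ V ∈ U '' T, {z | z ∈ T ∧ U z = V} := by
    intro z hz
    exact mem_biUnion ⟨z, hz, rfl⟩ ⟨hz, rfl⟩
  refine (hcount.biUnion ?_).mono this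
  rintro _ ⟨z, hz, rfl⟩
  obtain ⟨f, hf⟩ := hne z
  refine ((hfU f).subset ?_).countable
  rintro z' ⟨hz', h⟩
  exact ⟨hz', h ▸ hf⟩

theorem metrizable_of_second_alt (hm : Monolithic X) (P : ℕ → Set {z : X × X // z.1 ≠ z.2})
    (hcover : (⋃ n, P n) = univ) (hP : ∀ n, ∀ A ⊆ P n, A.Infinite → A ∉ diagIdeal X) :
    TopologicalSpace.MetrizableSpace X := by
  have hsc := hm.seqCompact
  have hscX : SeqCompactSpace X := hsc
  have hsc2 : SeqCompactSpace (X × X) := by
    refine ⟨fun x _ => ?_⟩
    obtain ⟨a, φ, hφ, ha⟩ := SeqCompactSpace.tendsto_subseq (fun n => (x n).1)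
    obtain ⟨b, ψ, hψ, hb⟩ := SeqCompactSpace.tendsto_subseq (fun n => (x (φ n)).2)
    refine ⟨(a, b), trivial, φ ∘ ψ, hφ.comp hψ, ?_⟩
    rw [nhds_prod_eq]
    exact (ha.comp hψ.tendsto_atTop).prodMk hb
  let e : X → (C(X, ℝ) → ℝ) := fun x f => f x
  have he : Continuous e := continuous_pi fun f => f.continuous
  have hei : ∀ x y, e x = e y → x = y := by
    intro x y hxy
    by_contra hne
    obtain ⟨f, hf⟩ := exists_separating_continuous hne
    exact hf (congrFun hxy f)
  let Q : ℕ → Set (X × X) := fun n => seqClosure (Subtype.val '' (P n))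
  have hQ : ∀ n, IsSeqClosed (Q n) := fun n => hm.isSeqClosed_seqClosure _
  have hdiag : ∀ n x, (x, x) ∉ Q n := by
    rintro n x ⟨s, hs, hlim⟩
    choose t ht hts using hs
    have hinf : (range t).Infinite := by
      intro hfin
      have hpig : ∃ z ∈ range t, ∃ᶠ j in atTop, t j = z := by
        by_contra hcon
        push Not at hcon
        have hev2 : ∀ z ∈ range t, ∀ᶠ j in atTop, t j ≠ z := fun z hz => by
          simpa [Filter.Frequently] using hcon z hz
        have hall : ∀ᶠ j in atTop, ∀ z ∈ range t, t j ≠ z := (eventually_all_finite hfin).mpr hev2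
        obtain ⟨j, hj⟩ := hall.exists
        exact hj (t j) ⟨j, rfl⟩ rfl
      obtain ⟨z, _, hz⟩ := hpig
      obtain ⟨φ, hφ, hφ2⟩ := extraction_of_frequently_atTop hz
      have h1 : Tendsto (fun j => s (φ j)) atTop (𝓝 (x, x)) := hlim.comp hφ.tendsto_atTop
      have h2 : (fun j => s (φ j)) = fun _ => z.1 := by
        funext j
        rw [← hts, hφ2]
      rw [h2] at h1
      have h3 := tendsto_nhds_unique h1 tendsto_const_nhds
      exact z.2 (by rw [← h3])
    apply hP n (range t) (by rintro _ ⟨j, rfl⟩; exact ht j) hinf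
    refine ⟨countable_range _, fun f ε hε => ?_⟩
    have h1 : Tendsto (fun j => |f (s j).1 - f (s j).2|) atTop (𝓝 |f x - f x|) := by
      have h2 := (f.continuous.comp continuous_fst).tendsto (x, x)
      have h3 := (f.continuous.comp continuous_snd).tendsto (x, x)
      exact ((h2.comp hlim).sub (h3.comp hlim)).abs
    rw [sub_self, abs_zero] at h1
    obtain ⟨N, hN⟩ := eventually_atTop.mp (h1.eventually (gt_mem_nhds hε))
    refine ((finite_lt_nat N).image t).subset ?_
    rintro _ ⟨⟨j, rfl⟩, hj⟩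
    refine ⟨j, ?_, rfl⟩
    by_contra hcon
    have h4 := hN j (not_lt.mp hcon)
    rw [← hts] at h4
    exact absurd hj (not_le.mpr h4)
  let R : ℕ → Set (C(X, ℝ) → ℝ) := fun n => (fun z : X × X => e z.1 - e z.2) '' Q n
  obtain ⟨C, hC, hsep⟩ := core_second (range e) (by
      intro x hx
      choose t ht using hx
      obtain ⟨a, φ, hφ, ha⟩ := SeqCompactSpace.tendsto_subseq t
      refine ⟨e a, mem_range_self a, φ, hφ, ?_⟩
      have : (x ∘ φ) = fun n => e (t (φ n)) := by
        funext n
        exact (ht (φ n)).symm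
      rw [this]
      exact (he.tendsto a).comp ha) R
    (by
      intro n u v hu hv
      choose z hz hzu using hu
      obtain ⟨a, φ, hφ, ha⟩ := SeqCompactSpace.tendsto_subseq z
      refine ⟨a, hQ n (fun k => hz (φ k)) ha, ?_⟩
      have h1 : Tendsto (fun k => e (z (φ k)).1 - e (z (φ k)).2) atTop (𝓝 (e a.1 - e a.2)) :=
        ((((he.comp continuous_fst).sub (he.comp continuous_snd)).tendsto a).comp ha)
      have h2 : (fun k => e (z (φ k)).1 - e (z (φ k)).2) = fun k => u (φ k) := by
        funext k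
        exact hzu (φ k)
      rw [h2] at h1
      exact tendsto_nhds_unique h1 (hv.comp hφ.tendsto_atTop))
    (by
      rintro n ⟨z, hz, hz0⟩
      have h1 : z.1 = z.2 := hei _ _ (sub_eq_zero.mp hz0)
      apply hdiag n z.1
      have : z = (z.1, z.1) := Prod.ext rfl h1.symm
      rwa [← this])
    (by
      rintro _ ⟨x, rfl⟩ _ ⟨y, rfl⟩ hxy
      have hne : x ≠ y := fun h => hxy (by rw [h])
      have : (⟨(x, y), hne⟩ : {z : X × X // z.1 ≠ z.2}) ∈ ⋃ n, P n := by rw [hcover]; trivial
      obtain ⟨n, hn⟩ := mem_iUnion.mp this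
      exact ⟨n, (x, y), subset_seqClosure ⟨_, hn, rfl⟩, rfl⟩)
  have : Countable C := hC.to_subtype
  let F : X → (C → ℝ) := fun x f => (f : C(X, ℝ)) x
  have hF : Continuous F := continuous_pi fun f => (f : C(X, ℝ)).continuous
  have hFi : Function.Injective F := by
    intro x y hxy
    apply hei
    apply hsep _ (mem_range_self x) _ (mem_range_self y)
    intro f hf
    exact congrFun hxy ⟨f, hf⟩
  exact (hF.isClosedEmbedding hFi).isEmbedding.metrizableSpace

/-- PID implies a positive answer. -/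
theorem pid_metrizable (hPID : PID) (hm : Monolithic X) (hp : CpPointFiniteCountable X) :
    TopologicalSpace.MetrizableSpace X := by
  rcases hPID _ _ hm.isPIdeal with ⟨T, hT, hTI⟩ | ⟨P, hcover, hP⟩
  · exact (no_first_alt hp T hT hTI).elim
  · exact metrizable_of_second_alt hm P hcover hP

end Pool.Agent.Lib.MP_d61ec6_gt
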