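import Mathlib
import Pool.Agent.Lib.MP_d61ec6_gt.PIDHalf
import Pool.Agent.Lib.MP_302921_gt.Guess

/-!
# A positive answer from the P-ideal dichotomy for sets of size at most the continuum
-/

open Set Filter Topology
open Pool.Agent.Lib.MP_d107a2_lc Pool.Agent.Lib.MP_302921_gt

namespace Pool.Agent.Lib.MP_d61ec6_gt

/-- The P-ideal dichotomy for sets of cardinality at most the continuum. -/
def PIDc : Prop :=
  ∀ (S : Type), Cardinal.mk S ≤ Cardinal.continuum → ∀ (I : Set (Set S)), IsPIdeal I →
    (∃ T : Set S, ¬ T.Countable ∧ ∀ A ⊆ T, A.Countable → A ∈ I) ∨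
    (∃ P : ℕ → Set S, (⋃ n, P n) = univ ∧ ∀ n, ∀ A ⊆ P n, A.Infinite → A ∉ I)

/-- A P-ideal can be pulled back along an injection. -/
theorem isPIdeal_comap {S S' : Type} {I : Set (Set S)} (hI : IsPIdeal I) (i : S' → S)
    (hi : Function.Injective i) : IsPIdeal {A : Set S' | i '' A ∈ I} := by
  refine ⟨⟨fun A hA => ?_, fun A hA => hI.1.finite _ (hA.image i),
    fun A hA B hB => hI.1.subset _ hA _ (image_mono hB), fun A hA B hB => ?_⟩, fun X hX => ?_⟩
  · exact countable_of_injective_of_countable_image hi.injOn (hI.1.countable _ hA)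
  · change i '' (A ∪ B) ∈ I
    rw [image_union]
    exact hI.1.union _ hA _ hB
  · obtain ⟨Y, hY, h⟩ := hI.2 (fun n => i '' X n) hX
    refine ⟨i ⁻¹' Y, hI.1.subset _ hY _ (image_preimage_subset i Y), fun n => ?_⟩
    apply Finite.of_finite_image (f := i) _ hi.injOn
    refine (h n).subset ?_
    rintro _ ⟨z, ⟨hz, hz'⟩, rfl⟩
    exact ⟨⟨z, hz, rfl⟩, hz'⟩

variable {X : Type} [TopologicalSpace X] [CompactSpace X] [T2Space X]

/-- a left separated sequence of length `ω₁` -/
theorem exists_leftSep (hm : Monolithic X) (hX : ¬ TopologicalSpace.MetrizableSpace X) :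
    ∃ x : Omega1 → X, ∀ α, x α ∉ closure (x '' Iio α) := by
  classical
  have hne : ∀ A : Set X, A.Countable → ∃ y, y ∉ closure A := by
    intro A hA
    by_contra hcon
    push Not at hcon
    have hsc := hm.secondCountable hA
    have h1 : closure A = univ := eq_univ_of_forall hcon
    apply hX
    rw [h1] at hsc
    have hsc' : SecondCountableTopology X :=
      (Homeomorph.Set.univ X).symm.isEmbedding.secondCountableTopology
    infer_instance
  have hc : ∀ α : Omega1, ∀ f : (β : Omega1) → β < α → X,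
      (range fun β : Iio α => f β.1 β.2).Countable := by
    intro α f
    have : Countable (Iio α) := (omega1_Iio_countable α).to_subtype
    exact countable_range _
  let x : Omega1 → X := (wellFounded_lt (α := Omega1)).fix fun α f => (hne _ (hc α f)).choose
  refine ⟨x, fun α => ?_⟩
  have h1 : x α = (hne _ (hc α fun β _ => x β)).choose :=
    (wellFounded_lt (α := Omega1)).fix_eq _ α
  have h2 := (hne _ (hc α fun β _ => x β)).choose_spec
  rw [← h1] at h2
  rwa [image_eq_range]

theorem second_countable_card {K : Type} [TopologicalSpace K] [T0Space K]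
    [SecondCountableTopology K] : Cardinal.mk K ≤ Cardinal.continuum := by
  have h1 : Function.Injective fun x : K => {b : TopologicalSpace.countableBasis K | x ∈ b.1} := by
    intro x y hxy
    apply (TopologicalSpace.isBasis_countableBasis K).inseparable_iff.mpr _ |>.eq
    intro s hs
    exact Set.ext_iff.mp hxy ⟨s, hs⟩
  refine (Cardinal.mk_le_of_injective h1).trans ?_
  rw [Cardinal.mk_set, ← Cardinal.two_power_aleph0]
  exact Cardinal.power_le_power_left two_ne_zero (Cardinal.mk_le_aleph0)

/-- The union of the closures of the initial segments. -/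
def leftUnion (x : Omega1 → X) : Set X := ⋃ α, closure (x '' Iio α)

theorem leftUnion_card (hm : Monolithic X) (x : Omega1 → X) :
    Cardinal.mk (leftUnion x) ≤ Cardinal.continuum := by
  have h1 : ∀ α, Cardinal.mk (closure (x '' Iio α)) ≤ Cardinal.continuum := by
    intro α
    have := hm.secondCountable ((omega1_Iio_countable α).image x)
    exact second_countable_card
  have h2 : Cardinal.mk Omega1 ≤ Cardinal.continuum := by
    have : Cardinal.mk Omega1 = Cardinal.aleph 1 := by simp [Omega1]
    rw [this]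
    exact Cardinal.aleph_one_le_continuum
  refine (Cardinal.mk_iUnion_le _).trans ?_
  refine (mul_le_mul' h2 (ciSup_le' h1)).trans ?_
  rw [Cardinal.continuum_mul_self]

omit [CompactSpace X] [T2Space X] in
theorem closure_subset_leftUnion (x : Omega1 → X) {A : Set X} (hA : A.Countable)
    (hAK : A ⊆ leftUnion x) : ∃ α, A ⊆ closure (x '' Iio α) := by
  have h1 : ∀ a : A, ∃ α, (a : X) ∈ closure (x '' Iio α) := fun a => mem_iUnion.mp (hAK a.2)
  choose g hg using h1
  have : Countable A := hA.to_subtype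
  obtain ⟨α, hα⟩ := omega1_bound (range g) (countable_range g)
  refine ⟨α, fun a ha => ?_⟩
  exact closure_mono (image_mono (Iio_subset_Iio (hα _ (mem_range_self ⟨a, ha⟩)).le)) (hg ⟨a, ha⟩)

theorem leftUnion_seq (hm : Monolithic X) (x : Omega1 → X) {u : ℕ → X}
    (hu : ∀ n, u n ∈ leftUnion x) :
    ∃ a ∈ leftUnion x, ∃ φ : ℕ → ℕ, StrictMono φ ∧ Tendsto (u ∘ φ) atTop (𝓝 a) := by
  have hsc := hm.seqCompact
  obtain ⟨a, φ, hφ, ha⟩ := SeqCompactSpace.tendsto_subseq u
  obtain ⟨α, hα⟩ := closure_subset_leftUnion x (countable_range u)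
    (by rintro _ ⟨n, rfl⟩; exact hu n)
  refine ⟨a, mem_iUnion.mpr ⟨α, ?_⟩, φ, hφ, ha⟩
  exact isClosed_closure.mem_of_tendsto ha
    (Eventually.of_forall fun n => hα (mem_range_self _))

/-- the pairs of points of `leftUnion x` as pairs of points of `X` -/
def emb (x : Omega1 → X) (z : {z : leftUnion x × leftUnion x // z.1 ≠ z.2}) :
    {z : X × X // z.1 ≠ z.2} :=
  ⟨(z.1.1.1, z.1.2.1), fun h => z.2 (Subtype.ext h)⟩

omit [CompactSpace X] [T2Space X] in
theorem emb_injective (x : Omega1 → X) : Function.Injective (emb x) := by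
  intro z w h
  have h1 := congrArg Subtype.val h
  have h2 : (z.1.1 : X) = w.1.1 := congrArg Prod.fst h1
  have h3 : (z.1.2 : X) = w.1.2 := congrArg Prod.snd h1
  exact Subtype.ext (Prod.ext (Subtype.ext h2) (Subtype.ext h3))

theorem dense_of_second_alt (hm : Monolithic X) (x : Omega1 → X)
    (P : ℕ → Set {z : leftUnion x × leftUnion x // z.1 ≠ z.2}) (hcover : (⋃ n, P n) = univ)
    (hP : ∀ n, ∀ A ⊆ P n, A.Infinite → emb x '' A ∉ diagIdeal X) :
    ∃ A : Set X, A ⊆ leftUnion x ∧ A.Countable ∧ leftUnion x ⊆ closure A := by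
  have hscX : SeqCompactSpace X := hm.seqCompact
  have hsc2 : SeqCompactSpace (X × X) := by
    refine ⟨fun x _ => ?_⟩
    obtain ⟨a, φ, hφ, ha⟩ := SeqCompactSpace.tendsto_subseq (fun n => (x n).1)
    obtain ⟨b, ψ, hψ, hb⟩ := SeqCompactSpace.tendsto_subseq (fun n => (x (φ n)).2)
    refine ⟨(a, b), trivial, φ ∘ ψ, hφ.comp hψ, ?_⟩
    rw [nhds_prod_eq]
    exact (ha.comp hψ.tendsto_atTop).prodMk hb
  let e : X → (C(X, ℝ) → ℝ) := fun x f => f x
  have he : Continuous e := continuous_pi fun f => f.continuous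
  have hei : ∀ x y, e x = e y → x = y := by
    intro x y hxy
    by_contra hne
    obtain ⟨f, hf⟩ := exists_separating_continuous hne
    exact hf (congrFun hxy f)
  let Q : ℕ → Set (X × X) := fun n => seqClosure ((fun z => (emb x z).1) '' P n)
  have hQ : ∀ n, IsSeqClosed (Q n) := fun n => hm.isSeqClosed_seqClosure _
  have hdiag : ∀ n y, (y, y) ∉ Q n := by
    rintro n y ⟨s, hs, hlim⟩
    choose t ht hts using hs
    have hinf : (range t).Infinite := by
      intro hfin
      have hpig : ∃ z ∈ range t, ∃ᶠ j in atTop, t j = z := by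
        by_contra hcon
        push Not at hcon
        have hev2 : ∀ z ∈ range t, ∀ᶠ j in atTop, t j ≠ z := fun z hz => by
          simpa [Filter.Frequently] using hcon z hz
        have hall : ∀ᶠ j in atTop, ∀ z ∈ range t, t j ≠ z := (eventually_all_finite hfin).mpr hev2
        obtain ⟨j, hj⟩ := hall.exists
        exact hj (t j) ⟨j, rfl⟩ rfl
      obtain ⟨z, _, hz⟩ := hpig
      obtain ⟨φ, hφ, hφ2⟩ := extraction_of_frequently_atTop hz
      have h1 : Tendsto (fun j => s (φ j)) atTop (𝓝 (y, y)) := hlim.comp hφ.tendsto_atTop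
      have h2 : (fun j => s (φ j)) = fun _ => (emb x z).1 := by
        funext j
        rw [← hts, hφ2]
      rw [h2] at h1
      have h3 := tendsto_nhds_unique h1 tendsto_const_nhds
      exact (emb x z).2 (by rw [← h3])
    apply hP n (range t) (by rintro _ ⟨j, rfl⟩; exact ht j) hinf
    refine ⟨(countable_range t).image _, fun f ε hε => ?_⟩
    have h1 : Tendsto (fun j => |f (s j).1 - f (s j).2|) atTop (𝓝 |f y - f y|) := by
      have h2 := (f.continuous.comp continuous_fst).tendsto (y, y)
      have h3 := (f.continuous.comp continuous_snd).tendsto (y, y)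
      exact ((h2.comp hlim).sub (h3.comp hlim)).abs
    rw [sub_self, abs_zero] at h1
    obtain ⟨N, hN⟩ := eventually_atTop.mp (h1.eventually (gt_mem_nhds hε))
    refine ((finite_lt_nat N).image fun j => emb x (t j)).subset ?_
    rintro _ ⟨⟨_, ⟨j, rfl⟩, rfl⟩, hj⟩
    refine ⟨j, ?_, rfl⟩
    by_contra hcon
    have h4 := hN j (not_lt.mp hcon)
    rw [← hts] at h4
    exact absurd hj (not_le.mpr h4)
  let R : ℕ → Set (C(X, ℝ) → ℝ) := fun n => (fun z : X × X => e z.1 - e z.2) '' Q n
  obtain ⟨C, hC, hsep⟩ := core_second (e '' leftUnion x) (by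
      intro u hu
      choose t ht htu using hu
      obtain ⟨a, haK, φ, hφ, ha⟩ := leftUnion_seq hm x ht
      refine ⟨e a, mem_image_of_mem e haK, φ, hφ, ?_⟩
      have : (u ∘ φ) = fun n => e (t (φ n)) := by
        funext n
        exact (htu (φ n)).symm
      rw [this]
      exact (he.tendsto a).comp ha) R
    (by
      intro n u v hu hv
      choose z hz hzu using hu
      obtain ⟨a, φ, hφ, ha⟩ := SeqCompactSpace.tendsto_subseq z
      refine ⟨a, hQ n (fun k => hz (φ k)) ha, ?_⟩
      have h1 : Tendsto (fun k => e (z (φ k)).1 - e (z (φ k)).2) atTop (𝓝 (e a.1 - e a.2)) :=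
        ((((he.comp continuous_fst).sub (he.comp continuous_snd)).tendsto a).comp ha)
      have h2 : (fun k => e (z (φ k)).1 - e (z (φ k)).2) = fun k => u (φ k) := by
        funext k
        exact hzu (φ k)
      rw [h2] at h1
      exact tendsto_nhds_unique h1 (hv.comp hφ.tendsto_atTop))
    (by
      rintro n ⟨z, hz, hz0⟩
      have h1 : z.1 = z.2 := hei _ _ (sub_eq_zero.mp hz0)
      apply hdiag n z.1
      have : z = (z.1, z.1) := Prod.ext rfl h1.symm
      rwa [← this])
    (by
      rintro _ ⟨a, ha, rfl⟩ _ ⟨b, hb, rfl⟩ hab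
      have hne : (⟨a, ha⟩ : leftUnion x) ≠ ⟨b, hb⟩ := fun h =>
        hab (congrArg (fun z : leftUnion x => e z.1) h)
      have : (⟨(⟨a, ha⟩, ⟨b, hb⟩), hne⟩ : {z : leftUnion x × leftUnion x // z.1 ≠ z.2}) ∈
          ⋃ n, P n := by rw [hcover]; trivial
      obtain ⟨n, hn⟩ := mem_iUnion.mp this
      exact ⟨n, (a, b), subset_seqClosure ⟨_, hn, rfl⟩, rfl⟩)
  have : Countable C := hC.to_subtype
  let F : X → (C → ℝ) := fun y f => (f : C(X, ℝ)) y
  have hF : Continuous F := continuous_pi fun f => (f : C(X, ℝ)).continuous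
  have hFi : ∀ a ∈ leftUnion x, ∀ b ∈ leftUnion x, F a = F b → a = b := by
    intro a ha b hb hab
    apply hei
    apply hsep _ (mem_image_of_mem e ha) _ (mem_image_of_mem e hb)
    intro f hf
    exact congrFun hab ⟨f, hf⟩
  -- a countable set with dense image
  obtain ⟨D, hD, hDd⟩ := TopologicalSpace.exists_countable_dense (F '' leftUnion x)
  have h5 : ∀ d : F '' leftUnion x, ∃ a ∈ leftUnion x, F a = d.1 := fun d => d.2
  choose g hg hgF using h5
  refine ⟨g '' D, ?_, hD.image g, fun y hy => ?_⟩
  · rintro _ ⟨d, _, rfl⟩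
    exact hg d
  · have h6 := hDd ⟨F y, mem_image_of_mem F hy⟩
    obtain ⟨s, hs, hlim⟩ := mem_closure_iff_seq_limit.mp h6
    obtain ⟨a, haK, φ, hφ, ha⟩ := leftUnion_seq hm x (u := fun n => g (s n)) fun n => hg _
    have h7 : Tendsto (fun n => F (g (s (φ n)))) atTop (𝓝 (F a)) := (hF.tendsto a).comp ha
    have h8 : Tendsto (fun n => F (g (s (φ n)))) atTop (𝓝 (F y)) := by
      have h9 : (fun n => F (g (s (φ n)))) = fun n => (s (φ n)).1 := by
        funext n
        exact hgF _
      rw [h9]
      exact (continuous_subtype_val.tendsto _).comp (hlim.comp hφ.tendsto_atTop)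
    have h10 := hFi _ haK _ hy (tendsto_nhds_unique h7 h8)
    rw [← h10]
    exact mem_closure_of_tendsto ha (Eventually.of_forall fun n => ⟨s (φ n), hs _, rfl⟩)

/-- The P-ideal dichotomy for sets of cardinality at most the continuum implies a positive
answer. -/
theorem pidc_metrizable (hPID : PIDc) (hm : Monolithic X) (hp : CpPointFiniteCountable X) :
    TopologicalSpace.MetrizableSpace X := by
  by_contra hX
  obtain ⟨x, hx⟩ := exists_leftSep hm hX
  have hcard : Cardinal.mk {z : leftUnion x × leftUnion x // z.1 ≠ z.2} ≤ Cardinal.continuum := by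
    refine (Cardinal.mk_subtype_le _).trans ?_
    rw [Cardinal.mk_prod, Cardinal.lift_id]
    refine (mul_le_mul' (leftUnion_card hm x) (leftUnion_card hm x)).trans ?_
    rw [Cardinal.continuum_mul_self]
  rcases hPID _ hcard _ (isPIdeal_comap hm.isPIdeal (emb x) (emb_injective x)) with
    ⟨T, hT, hTI⟩ | ⟨P, hcover, hP⟩
  · refine no_first_alt hp (emb x '' T) ?_ ?_
    · intro h
      exact hT (countable_of_injective_of_countable_image (emb_injective x).injOn h)
    · intro A hA hAc
      have h1 := hTI (emb x ⁻¹' A ∩ T) inter_subset_right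
        ((hAc.preimage (emb_injective x)).mono inter_subset_left)
      have h2 : emb x '' (emb x ⁻¹' A ∩ T) = A := by
        rw [image_preimage_inter]
        exact inter_eq_left.mpr hA
      change emb x '' (emb x ⁻¹' A ∩ T) ∈ diagIdeal X at h1
      rwa [h2] at h1
  · obtain ⟨A, hAK, hA, hd⟩ := dense_of_second_alt hm x P hcover hP
    obtain ⟨α, hα⟩ := closure_subset_leftUnion x hA hAK
    obtain ⟨β, hβ⟩ := omega1_bound {α} (countable_singleton α)
    have h1 : x α ∈ leftUnion x :=
      mem_iUnion.mpr ⟨β, subset_closure ⟨α, hβ α rfl, rfl⟩⟩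
    exact hx α (closure_minimal hα isClosed_closure (hd h1))

end Pool.Agent.Lib.MP_d61ec6_gt
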